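import Pool.Agent.Lib.MP_caab05_ag.BR.Forms

/-! Analytic bounds for the linear forms. -/

namespace Pool.Agent.Lib.MP_caab05_ag.BR

open Finset Nat

/-- The difference operator. -/
def dl (f : ℕ → ℝ) : ℕ → ℝ := fun s => f s - f (s + 1)

/-- Completely monotone sequences. -/
def CM (f : ℕ → ℝ) : Prop := ∀ n s, 0 ≤ (dl^[n] f) s

theorem CM.nonneg {f : ℕ → ℝ} (h : CM f) (s : ℕ) : 0 ≤ f s := h 0 s

theorem CM.dl {f : ℕ → ℝ} (h : CM f) : CM (dl f) := fun n s => h (n + 1) s

theorem dl_shift (n : ℕ) (f : ℕ → ℝ) (R : ℕ) :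
    dl^[n] (fun s => f (s + R)) = fun s => (dl^[n] f) (s + R) := by
  induction n generalizing f with
  | zero => rfl
  | succ n ih =>
    rw [Function.iterate_succ_apply, Function.iterate_succ_apply, ← ih]
    congr 1; funext s; simp only [dl]; rw [Nat.add_right_comm]

theorem CM.shift {f : ℕ → ℝ} (h : CM f) (R : ℕ) : CM (fun s => f (s + R)) := fun n s => by
  rw [dl_shift]; exact h n _

theorem dl_add (n : ℕ) (f g : ℕ → ℝ) :
    dl^[n] (fun s => f s + g s) = fun s => (dl^[n] f) s + (dl^[n] g) s := by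
  induction n generalizing f g with
  | zero => rfl
  | succ n ih =>
    rw [Function.iterate_succ_apply, Function.iterate_succ_apply, Function.iterate_succ_apply, ← ih]
    congr 1; funext s; simp only [dl]; ring

theorem CM.mul {f g : ℕ → ℝ} (hf : CM f) (hg : CM g) : CM (fun s => f s * g s) := by
  intro n
  induction n generalizing f g with
  | zero => exact fun s => mul_nonneg (hf.nonneg s) (hg.nonneg s)
  | succ n ih =>
    intro s
    have e : BR.dl (fun s => f s * g s) = fun s => BR.dl f s * g s + f (s + 1) * BR.dl g s := by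
      funext s; simp only [BR.dl]; ring
    rw [Function.iterate_succ_apply, e, dl_add]
    exact add_nonneg (ih hf.dl hg s) (ih (hf.shift 1) hg.dl s)

theorem CM.one : CM (fun _ => 1) := by
  have h0 : ∀ n, BR.dl^[n] (fun _ => (0 : ℝ)) = fun _ => 0 := fun n =>
    Function.iterate_fixed (by funext s; simp [BR.dl]) n
  intro n s
  cases n with
  | zero => simp
  | succ n =>
    have : BR.dl (fun _ => (1 : ℝ)) = fun _ => 0 := by funext s; simp [BR.dl]
    rw [Function.iterate_succ_apply, this, h0]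

theorem CM.prod {ι : Type*} (u : Finset ι) (f : ι → ℕ → ℝ) (h : ∀ i ∈ u, CM (f i)) :
    CM (fun s => ∏ i ∈ u, f i s) := by
  classical
  induction u using Finset.induction_on with
  | empty => simpa using CM.one
  | insert a u ha ih =>
    simp only [prod_insert ha]
    exact (h a (mem_insert_self _ _)).mul (ih fun i hi => h i (mem_insert_of_mem hi))

theorem CM.le_zero {f : ℕ → ℝ} (h : CM f) (s : ℕ) : f s ≤ f 0 := by
  induction s with
  | zero => exact le_rfl
  | succ s ih =>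
    have : 0 ≤ f s - f (s + 1) := h.dl.nonneg s
    linarith

theorem CM.abs_le {f : ℕ → ℝ} (h : CM f) (s : ℕ) : |f s| ≤ f 0 := by
  rw [abs_of_nonneg (h.nonneg s)]; exact h.le_zero s

theorem BB_nonneg {x : ℚ} (h0 : 0 < x) (h1 : x < 1) (m t : ℕ) : 0 ≤ BB x m t := by
  unfold BB
  refine div_nonneg (mul_nonneg (prod_nonneg fun n _ => ?_) (prod_nonneg fun n _ => ?_)) (by positivity)
  · have : (0 : ℚ) ≤ n := by positivity
    linarith
  · positivity

theorem BB_CM {x : ℚ} (h0 : 0 < x) (h1 : x < 1) (m : ℕ) : CM (fun t => (BB x m t : ℝ)) := by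
  intro n
  induction n generalizing m with
  | zero => intro s; simpa using BB_nonneg h0 h1 m s
  | succ n ih =>
    have : dl (fun t => (BB x m t : ℝ)) = fun t => (BB x (m + 1) t : ℝ) := by
      funext t
      simp only [dl]
      rw [← Rat.cast_sub]
      congr 1
      unfold BB
      rw [prod_range_succ, prod_range_succ, show t + 1 + m = t + m + 1 by ring,
        show t + (m + 1) = t + m + 1 by ring, Nat.factorial_succ]
      push_cast; field_simp; ring
    rw [Function.iterate_succ_apply, this]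
    exact ih (m + 1)

/-- The sum `∑ (s + R choose R) μ s z ^ s`. -/
noncomputable def WW (R : ℕ) (μ : ℕ → ℝ) (z : ℝ) : ℝ := ∑' s, ((s + R).choose R : ℝ) * μ s * z ^ s

theorem W_bound {z : ℝ} (R : ℕ) {μ : ℕ → ℝ} {c : ℝ} (h : ∀ s, |μ s| ≤ c) (s : ℕ) :
    ‖((s + R).choose R : ℝ) * μ s * z ^ s‖ ≤ c * (((s + R).choose R : ℝ) * |z| ^ s) := by
  rw [Real.norm_eq_abs, abs_mul, abs_mul, abs_pow, Nat.abs_cast]
  have := mul_le_mul_of_nonneg_left (h s) (by positivity : (0 : ℝ) ≤ ((s + R).choose R : ℝ) * |z| ^ s)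
  linarith

theorem W_summ {z : ℝ} (hz : |z| < 1) (R : ℕ) {μ : ℕ → ℝ} {c : ℝ} (h : ∀ s, |μ s| ≤ c) :
    Summable fun s => ((s + R).choose R : ℝ) * μ s * z ^ s :=
  Summable.of_norm_bounded ((summable_choose_mul_geometric_of_norm_lt_one R (r := |z|)
    (by simpa using hz)).mul_left c) (W_bound R h)

theorem W_abs_le {z : ℝ} (hz : |z| < 1) (R : ℕ) {μ : ℕ → ℝ} {c : ℝ} (h : ∀ s, |μ s| ≤ c) :
    |WW R μ z| ≤ c * (1 / (1 - |z|) ^ (R + 1)) :=
  tsum_of_norm_bounded ((hasSum_choose_mul_geometric_of_norm_lt_one R (r := |z|)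
    (by simpa using hz)).mul_left c) (W_bound R h)

theorem W_dl {z : ℝ} (hz : |z| < 1) (R : ℕ) {μ : ℕ → ℝ} (h : CM μ) :
    z * WW R (dl μ) z = z * WW R μ z - ∑' s, ((s + R).choose R : ℝ) * μ (s + 1) * z ^ (s + 1) := by
  have h1 := (W_summ hz R h.abs_le).hasSum.mul_left z
  have h2 := (W_summ hz R h.dl.abs_le).hasSum.mul_left z
  have h3 := h1.sub h2
  have e : (fun s => z * (((s + R).choose R : ℝ) * μ s * z ^ s) - z * (((s + R).choose R : ℝ) * dl μ s * z ^ s))
      = fun s => ((s + R).choose R : ℝ) * μ (s + 1) * z ^ (s + 1) := by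
    funext s; simp only [dl]; ring
  rw [e] at h3
  rw [h3.tsum_eq, WW, WW]; ring

theorem W_rec0 {z : ℝ} (hz : |z| < 1) {μ : ℕ → ℝ} (h : CM μ) :
    (1 - z) * WW 0 μ z = μ 0 - z * WW 0 (dl μ) z := by
  have := (W_summ hz 0 h.abs_le).tsum_eq_zero_add
  rw [W_dl hz 0 h, sub_mul, one_mul]
  unfold WW
  simp only [Nat.choose_zero_right, Nat.cast_one, one_mul, pow_zero, mul_one] at this ⊢
  linarith

theorem W_rec {z : ℝ} (hz : |z| < 1) (R : ℕ) {μ : ℕ → ℝ} (h : CM μ) :
    (1 - z) * WW (R + 1) μ z = WW R μ z - z * WW (R + 1) (dl μ) z := by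
  have h1 := W_summ hz (R + 1) h.abs_le
  have h2 := W_summ hz R h.abs_le
  have h3 := (((summable_nat_add_iff 1).mpr h1).hasSum.sub ((summable_nat_add_iff 1).mpr h2).hasSum).tsum_eq
  have e : (fun s => ((s + 1 + (R + 1)).choose (R + 1) : ℝ) * μ (s + 1) * z ^ (s + 1)
      - ((s + 1 + R).choose R : ℝ) * μ (s + 1) * z ^ (s + 1))
      = fun s => ((s + (R + 1)).choose (R + 1) : ℝ) * μ (s + 1) * z ^ (s + 1) := by
    funext s
    rw [show s + 1 + (R + 1) = (s + 1 + R) + 1 by ring, Nat.choose_succ_succ',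
      show s + (R + 1) = s + 1 + R by ring]
    push_cast; ring
  rw [e] at h3
  have h4 := h1.tsum_eq_zero_add
  have h5 := h2.tsum_eq_zero_add
  rw [W_dl hz _ h, h3, sub_mul, one_mul]
  unfold WW
  simp only [zero_add, Nat.choose_self, Nat.cast_one, one_mul, pow_zero, mul_one] at h4 h5
  linarith

theorem pos_of_rec {y c : ℝ} (hy : 0 ≤ y) (hc : 0 ≤ c) (T G : (ℕ → ℝ) → ℝ)
    (h1 : ∀ μ, CM μ → (1 + y) * T μ = G μ + y * T (dl μ)) (h2 : ∀ μ, CM μ → 0 ≤ G μ)
    (h3 : ∀ μ, CM μ → |T μ| ≤ μ 0 * c) (μ : ℕ → ℝ) (h : CM μ) : 0 ≤ T μ := by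
  have hq0 : 0 ≤ y / (1 + y) := by positivity
  have hq1 : y / (1 + y) < 1 := by rw [div_lt_one (by positivity)]; linarith
  have key : ∀ M : ℕ, ∀ μ, CM μ → -((y / (1 + y)) ^ M * (μ 0 * c)) ≤ T μ := by
    intro M
    induction M with
    | zero => intro μ h; simpa using (abs_le.mp (h3 μ h)).1
    | succ M ih =>
      intro μ h
      have a1 := h1 μ h
      have a2 := h2 μ h
      have a3 := ih _ h.dl
      have a4 : dl μ 0 ≤ μ 0 := by
        have := h.nonneg 1
        simp only [dl]; linarith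
      have a5 : (y / (1 + y)) ^ M * (dl μ 0 * c) ≤ (y / (1 + y)) ^ M * (μ 0 * c) :=
        mul_le_mul_of_nonneg_left (mul_le_mul_of_nonneg_right a4 hc) (by positivity)
      have a6 : y * -((y / (1 + y)) ^ M * (μ 0 * c)) ≤ y * T (dl μ) :=
        mul_le_mul_of_nonneg_left (by linarith) hy
      have a7 : -((y / (1 + y)) ^ (M + 1) * (μ 0 * c))
          = (y * -((y / (1 + y)) ^ M * (μ 0 * c))) / (1 + y) := by
        rw [pow_succ]; field_simp
      rw [a7, div_le_iff₀ (by positivity)]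
      linarith
  have hlim := ((tendsto_pow_atTop_nhds_zero_of_lt_one hq0 hq1).mul_const (μ 0 * c)).neg
  rw [zero_mul, neg_zero] at hlim
  exact le_of_tendsto' hlim fun M => key M μ h

theorem W_lower {z : ℝ} (hz : |z| < 1) (R : ℕ) {μ : ℕ → ℝ} (h : CM μ) :
    μ 0 / 2 ^ (R + 1) ≤ WW R μ z := by
  have hz' := abs_lt.mp hz
  rcases le_total 0 z with h0 | h0
  · have h1 := (W_summ hz R h.abs_le).le_tsum 0 fun s _ => by have := h.nonneg s; positivity
    simp only [zero_add, Nat.choose_self, Nat.cast_one, one_mul, pow_zero, mul_one] at h1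
    exact (div_le_self (h.nonneg 0) (one_le_pow₀ (by norm_num))).trans h1
  · have hc : ∀ R : ℕ, 0 ≤ 1 / (1 - |z|) ^ (R + 1) := fun R => by
      have : 0 < 1 - |z| := by linarith
      positivity
    have fin : ∀ T T' G : ℝ, (1 - z) * T = G - z * T' → 0 ≤ T → 0 ≤ T' → G / 2 ≤ T := by
      intro T T' G e h1 h2
      have := mul_nonneg (neg_nonneg.mpr h0) h2
      have := mul_nonneg (by linarith : 0 ≤ 1 + z) h1
      linarith
    induction R generalizing μ with
    | zero =>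
      have := pos_of_rec (y := -z) (neg_nonneg.mpr h0) (hc 0) (fun μ => WW 0 μ z) (fun μ => μ 0)
        (fun μ h => by have := W_rec0 hz h; linarith) (fun μ h => h.nonneg 0)
        (fun μ h => W_abs_le hz 0 h.abs_le)
      simpa using fin _ _ _ (W_rec0 hz h) (this μ h) (this _ h.dl)
    | succ R ih =>
      have := pos_of_rec (y := -z) (neg_nonneg.mpr h0) (hc (R + 1)) (fun μ => WW (R + 1) μ z)
        (fun μ => WW R μ z) (fun μ h => by have := W_rec hz R h; linarith)
        (fun μ h => le_trans (by have := h.nonneg 0; positivity) (ih h))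
        (fun μ h => W_abs_le hz _ h.abs_le)
      have h2 := fin _ _ _ (W_rec hz R h) (this μ h) (this _ h.dl)
      have h3 := ih h
      rw [pow_succ, ← div_div]
      linarith

theorem mult_bounds (r m : ℕ) : m ! ^ r ≤ (r * m)! ∧ (r * m)! ≤ 2 ^ (r * r * m) * m ! ^ r := by
  induction r with
  | zero => simp
  | succ r ih =>
    have e : ((r + 1) * m)! = (r * m + m).choose m * (r * m)! * m ! := by
      rw [Nat.add_choose_mul_factorial_mul_factorial]; congr 1; ring
    have h1 : 1 ≤ (r * m + m).choose m := Nat.choose_pos (by omega)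
    have h2 : (r * m + m).choose m ≤ 2 ^ (r * m + m) := Nat.choose_le_two_pow _ _
    rw [e, pow_succ]
    constructor
    · exact Nat.mul_le_mul_right _ (by nlinarith [ih.1])
    · calc (r * m + m).choose m * (r * m)! * m !
          ≤ 2 ^ (r * m + m) * (2 ^ (r * r * m) * m ! ^ r) * m ! :=
            Nat.mul_le_mul_right _ (Nat.mul_le_mul h2 ih.2)
        _ = 2 ^ (r * m + m + r * r * m) * (m ! ^ r * m !) := by rw [pow_add _ (r * m + m)]; ring
        _ ≤ _ := Nat.mul_le_mul_right _ (Nat.pow_le_pow_right (by norm_num) (by nlinarith))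

theorem factorial_add_cast (t m : ℕ) : ((t + m)! : ℚ) = t ! * ∏ n ∈ range m, ((t : ℚ) + 1 + n) := by
  rw [← Nat.factorial_mul_ascFactorial, Nat.ascFactorial_eq_prod_range]
  push_cast; rfl

theorem factorial_cast (m : ℕ) : (m ! : ℚ) = ∏ n ∈ range m, ((n : ℚ) + 1) := by
  rw [← Finset.prod_range_add_one_eq_factorial]; push_cast; rfl

theorem BB_upper {x : ℚ} (h0 : 0 < x) (h1 : x < 1) {r m t : ℕ} (ht : r * m ≤ t) :
    BB x m t ≤ 1 / ((r : ℚ) + 1) ^ m := by
  unfold BB
  rw [div_le_div_iff₀ (by positivity) (by positivity), one_mul, factorial_add_cast]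
  have a1 := poch_le (x := 1 - x) (by linarith) (by linarith) m
  have a2 := poch_le h0.le h1.le t
  have a3 : (m ! : ℚ) * ((r : ℚ) + 1) ^ m ≤ ∏ n ∈ range m, ((t : ℚ) + 1 + n) := by
    rw [factorial_cast, ← card_range m, ← prod_const, card_range, ← prod_mul_distrib]
    refine prod_le_prod (fun n _ => by positivity) fun n hn => ?_
    have h2 : r * (n + 1) ≤ t := le_trans (Nat.mul_le_mul_left _ (mem_range.mp hn)) ht
    have h3 : (r : ℚ) * (n + 1) ≤ t := by exact_mod_cast h2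
    linarith
  calc (∏ n ∈ range m, (1 - x + n)) * (∏ n ∈ range t, (x + n)) * ((r : ℚ) + 1) ^ m
      ≤ (m ! * t !) * ((r : ℚ) + 1) ^ m :=
        mul_le_mul_of_nonneg_right (mul_le_mul a1 a2 (prod_nonneg fun n _ => by positivity)
          (by positivity)) (by positivity)
    _ = t ! * (m ! * ((r : ℚ) + 1) ^ m) := by ring
    _ ≤ _ := mul_le_mul_of_nonneg_left a3 (by positivity)

theorem poch_ge {x : ℚ} (h0 : 0 ≤ x) {t : ℕ} (ht : 1 ≤ t) :
    x * t ! / t ≤ ∏ n ∈ range t, (x + n) := by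
  obtain ⟨t, rfl⟩ : ∃ u, t = u + 1 := ⟨t - 1, by omega⟩
  rw [prod_range_succ', Nat.factorial_succ]
  have : (t ! : ℚ) ≤ ∏ n ∈ range t, (x + ((n + 1 : ℕ) : ℚ)) := by
    rw [factorial_cast]
    exact prod_le_prod (fun n _ => by positivity) fun n _ => by push_cast; linarith
  calc x * ((((t + 1) * t ! : ℕ)) : ℚ) / ((t + 1 : ℕ) : ℚ) = t ! * x := by
        push_cast; field_simp
    _ ≤ _ := by simpa using mul_le_mul_of_nonneg_right this h0

theorem pow_self_le (m : ℕ) : (m : ℚ) ^ m ≤ 3 ^ m * m ! := by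
  have h1 := Real.pow_div_factorial_le_exp (m : ℝ) (by positivity) m
  have h2 : Real.exp m ≤ 3 ^ m := by
    rw [← Real.exp_one_pow]
    exact pow_le_pow_left₀ (Real.exp_pos 1).le (by have := Real.exp_one_lt_d9; linarith) m
  rw [div_le_iff₀ (by positivity)] at h1
  have : (m : ℝ) ^ m ≤ 3 ^ m * m ! := h1.trans (mul_le_mul_of_nonneg_right h2 (by positivity))
  exact_mod_cast this

theorem BB_lower {x : ℚ} (h0 : 0 < x) (h1 : x < 1) {r m : ℕ} (hr : 1 ≤ r) (hm : 1 ≤ m) :
    x * (1 - x) / r / (12 * ((r : ℚ) + 1)) ^ m ≤ BB x m (r * m) := by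
  have a1 := poch_ge (x := 1 - x) (by linarith) hm
  have a2 := poch_ge h0.le (t := r * m) (by nlinarith)
  have h1' : 0 < 1 - x := by linarith
  have hr' : (0 : ℚ) < r := by exact_mod_cast hr
  have hm' : (0 : ℚ) < m := by exact_mod_cast hm
  have a3 : ((r * m + m)! : ℚ) ≤ (r * m)! * ((3 * ((r : ℚ) + 1)) ^ m * m !) := by
    rw [factorial_add_cast]
    refine mul_le_mul_of_nonneg_left ?_ (by positivity)
    calc ∏ n ∈ range m, (((r * m : ℕ) : ℚ) + 1 + n) ≤ ∏ _n ∈ range m, ((r : ℚ) + 1) * m := by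
          refine prod_le_prod (fun n _ => by positivity) fun n hn => ?_
          have : (n : ℚ) + 1 ≤ m := by exact_mod_cast mem_range.mp hn
          push_cast; linarith
      _ = ((r : ℚ) + 1) ^ m * (m : ℚ) ^ m := by rw [prod_const, card_range, mul_pow]
      _ ≤ ((r : ℚ) + 1) ^ m * (3 ^ m * m !) := mul_le_mul_of_nonneg_left (pow_self_le m) (by positivity)
      _ = _ := by rw [mul_pow]; ring
  have a4 : (m : ℚ) * m ≤ 4 ^ m := by
    have : (m : ℚ) ≤ 2 ^ m := by exact_mod_cast Nat.lt_two_pow_self.le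
    calc (m : ℚ) * m ≤ 2 ^ m * 2 ^ m := mul_le_mul this this (by positivity) (by positivity)
      _ = 4 ^ m := by rw [← mul_pow]; norm_num
  unfold BB
  calc x * (1 - x) / r / (12 * ((r : ℚ) + 1)) ^ m
      = x * (1 - x) / r / (4 ^ m * (3 * ((r : ℚ) + 1)) ^ m) := by
        rw [← mul_pow]; congr 2; ring
    _ ≤ x * (1 - x) / r / (m * m * (3 * ((r : ℚ) + 1)) ^ m) :=
        div_le_div_of_nonneg_left (by positivity) (by positivity)
          (mul_le_mul_of_nonneg_right a4 (by positivity))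
    _ = ((1 - x) * m ! / m) * (x * (r * m)! / ((r * m : ℕ) : ℚ))
          / ((r * m)! * ((3 * ((r : ℚ) + 1)) ^ m * m !)) := by
        push_cast; field_simp
    _ ≤ _ := div_le_div₀ (mul_nonneg (le_trans (by positivity) a1) (le_trans (by positivity) a2))
        (mul_le_mul a1 a2 (by positivity) (le_trans (by positivity) a1)) (by positivity) a3

variable {k : ℕ}

theorem LL_eq_W {a : Fin k → ℚ} (ha : ∀ l, 0 < a l ∧ a l < 1) {z : ℝ} (hz : |z| < 1) (r m : ℕ) :
    LL a z r m = (((r * m)! : ℝ) / (m ! : ℝ) ^ r * z ^ (r * m))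
      * WW (r * m) (fun s => ∏ l, (BB (a l) m (s + r * m) : ℝ)) z := by
  have hCM : CM (fun s => ∏ l, (BB (a l) m (s + r * m) : ℝ)) :=
    CM.prod univ _ fun l _ => (BB_CM (ha l).1 (ha l).2 m).shift _
  have h1 := (W_summ hz (r * m) hCM.abs_le).hasSum.mul_left
    (((r * m)! : ℝ) / (m ! : ℝ) ^ r * z ^ (r * m))
  have h2 : HasSum (fun s => (TT a r m (s + r * m) : ℝ) * z ^ (s + r * m))
      ((((r * m)! : ℝ) / (m ! : ℝ) ^ r * z ^ (r * m))
      * WW (r * m) (fun s => ∏ l, (BB (a l) m (s + r * m) : ℝ)) z) := by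
    refine (congrArg (fun f => HasSum f _) (funext fun s => ?_)).mp h1
    rw [TT, Nat.descFactorial_eq_factorial_mul_choose]
    push_cast; ring
  have h3 := (hasSum_nat_add_iff (f := fun t => (TT a r m t : ℝ) * z ^ t) (r * m)).mp h2
  rw [sum_eq_zero, add_zero] at h3
  · exact h3.tsum_eq
  · intro t ht
    rw [TT, Nat.descFactorial_of_lt (mem_range.mp ht)]; simp

theorem LL_upper {a : Fin k → ℚ} (ha : ∀ l, 0 < a l ∧ a l < 1) {z : ℝ} (hz : |z| < 1) (r m : ℕ) :
    |LL a z r m| ≤ 2 ^ (r * r * m) * ((1 / ((r : ℝ) + 1) ^ m) ^ k * (1 / (1 - |z|) ^ (r * m + 1))) := by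
  rw [LL_eq_W ha hz, abs_mul]
  refine mul_le_mul ?_ (W_abs_le hz _ fun s => ?_) (abs_nonneg _) (by positivity)
  · rw [abs_mul, abs_pow, abs_of_nonneg (by positivity)]
    have h1 : ((r * m)! : ℝ) / (m ! : ℝ) ^ r ≤ 2 ^ (r * r * m) := by
      rw [div_le_iff₀ (by positivity)]; exact_mod_cast (mult_bounds r m).2
    exact (mul_le_of_le_one_right (by positivity) (pow_le_one₀ (abs_nonneg _) hz.le)).trans h1
  · have h0 : ∀ l, (0 : ℝ) ≤ BB (a l) m (s + r * m) := fun l => by
      exact_mod_cast BB_nonneg (ha l).1 (ha l).2 _ _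
    rw [abs_of_nonneg (prod_nonneg fun l _ => h0 l)]
    calc ∏ l, (BB (a l) m (s + r * m) : ℝ) ≤ ∏ _l : Fin k, 1 / ((r : ℝ) + 1) ^ m :=
          prod_le_prod (fun l _ => h0 l) fun l _ => by
            have := (Rat.cast_le (K := ℝ)).mpr
              (BB_upper (ha l).1 (ha l).2 (r := r) (m := m) (t := s + r * m) (by omega))
            push_cast at this; exact this
      _ = _ := by simp

theorem LL_lower {a : Fin k → ℚ} (ha : ∀ l, 0 < a l ∧ a l < 1) {z : ℝ} (hz : |z| < 1) {r m : ℕ}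
    (hr : 1 ≤ r) (hm : 1 ≤ m) :
    |z| ^ (r * m) * ((∏ l, ((a l : ℝ) * (1 - a l) / r)) / ((12 * ((r : ℝ) + 1)) ^ m) ^ k
      / 2 ^ (r * m + 1)) ≤ |LL a z r m| := by
  have hCM : CM (fun s => ∏ l, (BB (a l) m (s + r * m) : ℝ)) :=
    CM.prod univ _ fun l _ => (BB_CM (ha l).1 (ha l).2 m).shift _
  have hp : ∀ l, (0 : ℝ) ≤ (a l : ℝ) * (1 - a l) / r := fun l => by
    have h1 : (0 : ℝ) < a l := by exact_mod_cast (ha l).1
    have h2 : (a l : ℝ) < 1 := by exact_mod_cast (ha l).2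
    have : (0 : ℝ) < 1 - a l := by linarith
    positivity
  rw [LL_eq_W ha hz, abs_mul]
  refine mul_le_mul ?_ (le_trans ?_ ((W_lower hz _ hCM).trans (le_abs_self _)))
    (by have := prod_nonneg fun l (_ : l ∈ univ) => hp l; positivity) (abs_nonneg _)
  · rw [abs_mul, abs_pow, abs_of_nonneg (a := ((r * m)! : ℝ) / (m ! : ℝ) ^ r) (by positivity)]
    have h1 : 1 ≤ ((r * m)! : ℝ) / (m ! : ℝ) ^ r := by
      rw [le_div_iff₀ (by positivity), one_mul]; exact_mod_cast (mult_bounds r m).1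
    exact le_mul_of_one_le_left (by positivity) h1
  · refine div_le_div_of_nonneg_right ?_ (by positivity)
    have : ((12 * ((r : ℝ) + 1)) ^ m) ^ k = ∏ _l : Fin k, (12 * ((r : ℝ) + 1)) ^ m := by simp
    rw [this, ← prod_div_distrib]
    refine prod_le_prod (fun l _ => by have := hp l; positivity) fun l _ => ?_
    rw [zero_add]
    exact_mod_cast BB_lower (ha l).1 (ha l).2 hr hm

end Pool.Agent.Lib.MP_caab05_ag.BR
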