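import Mathlib

/-! A weak form of Nesterenko's linear independence criterion (proof after Fischler and Zudilin). -/

namespace Pool.Agent.Lib.MP_caab05_ag.BR

open Finset

theorem dirichlet {s : ℕ} (θ : Fin s → ℝ) (Q : ℕ) (hQ : 0 < Q) :
    ∃ q : ℕ, 1 ≤ q ∧ q ≤ Q ^ s ∧ ∃ p : Fin s → ℤ, ∀ i, |(q : ℝ) * θ i - p i| ≤ 1 / Q := by
  classical
  have hQ' : (0 : ℝ) < Q := by exact_mod_cast hQ
  have hlt : ∀ x : ℝ, ⌊(Q : ℝ) * Int.fract x⌋₊ < Q := by
    intro x
    rw [Nat.floor_lt (mul_nonneg hQ'.le (Int.fract_nonneg x))]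
    have := Int.fract_lt_one x
    nlinarith
  let f : Fin (Q ^ s + 1) → (Fin s → Fin Q) := fun q i => ⟨⌊(Q : ℝ) * Int.fract ((q : ℕ) * θ i)⌋₊, hlt _⟩
  obtain ⟨x, y, hxy, hf⟩ := Fintype.exists_ne_map_eq_of_card_lt f (by simp)
  have key : ∀ x y : Fin (Q ^ s + 1), x < y → f x = f y →
      ∃ q : ℕ, 1 ≤ q ∧ q ≤ Q ^ s ∧ ∃ p : Fin s → ℤ, ∀ i, |(q : ℝ) * θ i - p i| ≤ 1 / Q := by
    intro x y hlt' hf
    have h1 : (x : ℕ) < y := hlt'
    refine ⟨y - x, by omega, by have := y.2; omega,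
      fun i => ⌊((y : ℕ) : ℝ) * θ i⌋ - ⌊((x : ℕ) : ℝ) * θ i⌋, fun i => ?_⟩
    have h2 : ⌊(Q : ℝ) * Int.fract ((x : ℕ) * θ i)⌋₊ = ⌊(Q : ℝ) * Int.fract ((y : ℕ) * θ i)⌋₊ := by
      have := congrFun hf i
      simpa [f] using this
    set u := Int.fract ((x : ℕ) * θ i) with hu
    set v := Int.fract ((y : ℕ) * θ i) with hv
    have hu0 : 0 ≤ (Q : ℝ) * u := mul_nonneg hQ'.le (Int.fract_nonneg _)
    have hv0 : 0 ≤ (Q : ℝ) * v := mul_nonneg hQ'.le (Int.fract_nonneg _)
    have a1 := Nat.floor_le hu0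
    have a2 := Nat.floor_le hv0
    have a3 := Nat.lt_floor_add_one ((Q : ℝ) * u)
    have a4 := Nat.lt_floor_add_one ((Q : ℝ) * v)
    rw [h2] at a1 a3
    have e : (((y - x : ℕ) : ℝ)) * θ i - ((⌊((y : ℕ) : ℝ) * θ i⌋ - ⌊((x : ℕ) : ℝ) * θ i⌋ : ℤ) : ℝ)
        = v - u := by
      rw [Nat.cast_sub h1.le, hu, hv, Int.fract, Int.fract]; push_cast; ring
    rw [e, abs_le, le_div_iff₀ hQ', neg_le, le_div_iff₀ hQ']
    constructor <;> nlinarith
  rcases lt_or_gt_of_ne hxy with h | h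
  · exact key x y h hf
  · exact key y x h hf.symm

theorem crit_fin {s : ℕ} (θ : Fin s → ℝ) (ℓ : ℕ → Fin s → ℤ) {c1 c2 c3 α1 α2 β : ℝ}
    (hc1 : 0 < c1) (hc2 : 0 < c2) (hc3 : 0 < c3) (hα : 0 < α2) (hγ : 0 ≤ β + α1 - α2)
    (hlow : ∀ n : ℕ, c1 * Real.exp (-α1 * n) ≤ |∑ i, (ℓ n i : ℝ) * θ i|)
    (hup : ∀ n : ℕ, |∑ i, (ℓ n i : ℝ) * θ i| ≤ c2 * Real.exp (-α2 * n))
    (hco : ∀ n i, |(ℓ n i : ℝ)| ≤ c3 * Real.exp (β * n)) :
    α2 ≤ s * (β + α1 - α2) := by
  classical
  set γ := β + α1 - α2 with hγdef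
  set c4 : ℝ := min c1 (c1 * Real.exp (-α2) / (2 * c2)) with hc4
  have hc4pos : 0 < c4 := lt_min hc1 (by positivity)
  -- main inequality for every `Q`
  have main : ∀ Q : ℕ, 0 < Q → ∃ n : ℕ, (Q : ℝ) * c4 ≤ (s + 1) * c3 * Real.exp (γ * n) ∧
      (n = 0 ∨ Real.exp (α2 * (n - 1)) ≤ 2 * c2 * (Q : ℝ) ^ s) := by
    intro Q hQ
    have hQ' : (0 : ℝ) < Q := by exact_mod_cast hQ
    obtain ⟨q, hq1, hq2, p, hp⟩ := dirichlet θ Q hQ
    have hq' : (1 : ℝ) ≤ q := by exact_mod_cast hq1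
    have hex : ∃ n : ℕ, (q : ℝ) * c2 * Real.exp (-α2 * n) < 1 / 2 := by
      obtain ⟨n, hn⟩ := exists_nat_gt (2 * q * c2 / α2)
      refine ⟨n, ?_⟩
      have h1 : α2 * n + 1 ≤ Real.exp (α2 * n) := Real.add_one_le_exp _
      rw [div_lt_iff₀ hα] at hn
      rw [neg_mul, Real.exp_neg, ← div_eq_mul_inv, div_lt_iff₀ (Real.exp_pos _)]
      nlinarith
    set n := Nat.find hex with hn
    have hn1 : (q : ℝ) * c2 * Real.exp (-α2 * n) < 1 / 2 := Nat.find_spec hex
    have hn2 : n = 0 ∨ 1 / 2 ≤ (q : ℝ) * c2 * Real.exp (-α2 * (n - 1)) := by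
      rcases Nat.eq_zero_or_pos n with h | h
      · exact Or.inl h
      · right
        have := Nat.find_min hex (m := n - 1) (by omega)
        rw [Nat.cast_sub h] at this
        simpa using this
    set L := ∑ i, (ℓ n i : ℝ) * θ i with hL
    have hL1 : |(q : ℝ) * L| < 1 / 2 := by
      rw [abs_mul, abs_of_pos (by linarith)]
      have := mul_le_mul_of_nonneg_left (hup n) (by linarith : (0 : ℝ) ≤ q)
      linarith
    have hL2 : c4 * Real.exp ((α2 - α1) * n) ≤ |(q : ℝ) * L| := by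
      rw [abs_mul, abs_of_pos (by linarith : (0 : ℝ) < q)]
      have h0 := hlow n
      rcases hn2 with h | h
      · have : c4 ≤ c1 := min_le_left _ _
        rw [h] at h0 ⊢
        simp only [Nat.cast_zero, mul_zero, Real.exp_zero, mul_one] at h0 ⊢
        have hL' : L = ∑ i, (ℓ 0 i : ℝ) * θ i := by rw [hL, h]
        rw [hL']
        nlinarith [abs_nonneg (∑ i, (ℓ 0 i : ℝ) * θ i)]
      · have h4 : c4 ≤ c1 * Real.exp (-α2) / (2 * c2) := min_le_right _ _
        have hE := Real.exp_pos (-α2 * (n - 1))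
        have hq3 : 1 / (2 * c2 * Real.exp (-α2 * (n - 1))) ≤ q := by
          rw [div_le_iff₀ (by positivity)]; linarith
        have e5 : c1 * Real.exp (-α2) / (2 * c2) * Real.exp ((α2 - α1) * n)
            = 1 / (2 * c2 * Real.exp (-α2 * (n - 1))) * (c1 * Real.exp (-α1 * n)) := by
          have : Real.exp (-α2) * Real.exp ((α2 - α1) * n) * Real.exp (-α2 * (n - 1))
              = Real.exp (-α1 * n) := by
            simp only [← Real.exp_add]; congr 1; ring
          rw [← this]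
          generalize Real.exp (-α2 * (n - 1)) = E at hE ⊢
          field_simp
        calc c4 * Real.exp ((α2 - α1) * n)
            ≤ c1 * Real.exp (-α2) / (2 * c2) * Real.exp ((α2 - α1) * n) :=
              mul_le_mul_of_nonneg_right h4 (Real.exp_pos _).le
          _ = _ := e5
          _ ≤ q * |L| := mul_le_mul hq3 h0 (by positivity) (by linarith)
    refine ⟨n, ?_, ?_⟩
    · by_contra hcon
      push Not at hcon
      set E := ∑ i, (ℓ n i : ℝ) * ((q : ℝ) * θ i - p i) with hE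
      have hE1 : |E| ≤ s * (c3 * Real.exp (β * n) * (1 / Q)) := by
        calc |E| ≤ ∑ i, |(ℓ n i : ℝ) * ((q : ℝ) * θ i - p i)| := Finset.abs_sum_le_sum_abs _ _
          _ ≤ ∑ _i : Fin s, c3 * Real.exp (β * n) * (1 / Q) := by
              refine Finset.sum_le_sum fun i _ => ?_
              rw [abs_mul]
              exact mul_le_mul (hco n i) (hp i) (abs_nonneg _) (by positivity)
          _ = _ := by simp
      have hE2 : |E| < c4 * Real.exp ((α2 - α1) * n) := by
        have e : Real.exp (β * n) = Real.exp (γ * n) * Real.exp ((α2 - α1) * n) := by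
          rw [← Real.exp_add]; congr 1; rw [hγdef]; ring
        have hpos := Real.exp_pos ((α2 - α1) * n)
        have hpos2 := Real.exp_pos (γ * n)
        have : s * (c3 * Real.exp (β * n) * (1 / Q)) < c4 * Real.exp ((α2 - α1) * n) := by
          rw [e, mul_one_div, ← mul_div_assoc, div_lt_iff₀ hQ']
          have : (s : ℝ) * (c3 * Real.exp (γ * n)) < Q * c4 := by nlinarith [mul_pos hc3 hpos2]
          nlinarith
        linarith
      have hM : ((∑ i, ℓ n i * p i : ℤ) : ℝ) = q * L - E := by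
        rw [hL, hE, Finset.mul_sum, ← Finset.sum_sub_distrib]; push_cast
        exact Finset.sum_congr rfl fun i _ => by ring
      have h1 : |((∑ i, ℓ n i * p i : ℤ) : ℝ)| < 1 := by
        rw [hM]
        have := abs_sub (q * L) E
        linarith
      have h2 : (∑ i, ℓ n i * p i : ℤ) = 0 := by
        have : |(∑ i, ℓ n i * p i : ℤ)| < 1 := by exact_mod_cast h1
        exact Int.abs_lt_one_iff.mp this
      rw [h2] at hM
      have : (q : ℝ) * L = E := by simpa [sub_eq_zero] using hM.symm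
      rw [this] at hL2
      linarith
    · rcases hn2 with h | h
      · exact Or.inl h
      · right
        have hq4 : (q : ℝ) ≤ (Q : ℝ) ^ s := by exact_mod_cast hq2
        rw [neg_mul, Real.exp_neg, ← div_eq_mul_inv, le_div_iff₀ (Real.exp_pos _)] at h
        nlinarith
  by_contra hcon
  push Not at hcon
  -- take logarithms and let `Q` tend to infinity
  set c5 : ℝ := (s + 1) * c3 / c4 with hc5
  have hc5pos : 0 < c5 := by positivity
  set C : ℝ := α2 * |Real.log c5| + γ * (α2 + |Real.log (2 * c2)|) with hC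
  have hδ : 0 < α2 - s * γ := by linarith
  obtain ⟨Q, hQ⟩ := exists_nat_gt (Real.exp (C / (α2 - s * γ)))
  have hQ' : (0 : ℝ) < Q := lt_trans (Real.exp_pos _) hQ
  have hQ0 : 0 < Q := by exact_mod_cast hQ'
  have hlogQ : C < Real.log Q * (α2 - s * γ) := by
    rw [← div_lt_iff₀ hδ]; exact (Real.lt_log_iff_exp_lt hQ').mpr hQ
  have hlogQ0 : 0 ≤ Real.log Q := Real.log_natCast_nonneg Q
  obtain ⟨n, h1, h2⟩ := main Q hQ0
  have h3 : Real.log Q ≤ Real.log c5 + γ * n := by
    have : (Q : ℝ) ≤ c5 * Real.exp (γ * n) := by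
      rw [hc5, div_mul_eq_mul_div, le_div_iff₀ hc4pos]; exact h1
    have := Real.log_le_log hQ' this
    rwa [Real.log_mul hc5pos.ne' (Real.exp_pos _).ne', Real.log_exp] at this
  have h4 : α2 * n ≤ α2 + |Real.log (2 * c2)| + s * Real.log Q := by
    rcases h2 with h | h
    · rw [h]; simp only [Nat.cast_zero, mul_zero]; positivity
    · have := Real.log_le_log (Real.exp_pos _) h
      rw [Real.log_exp, Real.log_mul (by positivity) (by positivity), Real.log_pow] at this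
      have := le_abs_self (Real.log (2 * c2))
      linarith
  have h5 := le_abs_self (Real.log c5)
  have h6 : α2 * Real.log Q ≤ α2 * |Real.log c5| + γ * (α2 * n) := by nlinarith
  have h7 := mul_le_mul_of_nonneg_left h4 hγ
  nlinarith

theorem crit {ι : Type} [Fintype ι] (ξ : ι → ℝ) (ℓ : ℕ → ι → ℤ) {c1 c2 c3 α1 α2 β : ℝ}
    (hc1 : 0 < c1) (hc2 : 0 < c2) (hc3 : 0 < c3) (hα : 0 < α2) (hγ : 0 ≤ β + α1 - α2)
    (hlow : ∀ n : ℕ, c1 * Real.exp (-α1 * n) ≤ |∑ i, (ℓ n i : ℝ) * ξ i|)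
    (hup : ∀ n : ℕ, |∑ i, (ℓ n i : ℝ) * ξ i| ≤ c2 * Real.exp (-α2 * n))
    (hco : ∀ n i, |(ℓ n i : ℝ)| ≤ c3 * Real.exp (β * n)) :
    α2 ≤ Module.finrank ℚ (Submodule.span ℚ (Set.range ξ)) * (β + α1 - α2) := by
  classical
  set V := Submodule.span ℚ (Set.range ξ) with hV
  have : FiniteDimensional ℚ V := FiniteDimensional.span_of_finite ℚ (Set.finite_range ξ)
  set b := Module.finBasis ℚ V
  let x : ι → V := fun i => ⟨ξ i, Submodule.subset_span ⟨i, rfl⟩⟩
  let r : ι → Fin (Module.finrank ℚ V) → ℚ := fun i j => b.repr (x i) j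
  have hx : ∀ i, ξ i = ∑ j, (r i j : ℝ) * (b j : ℝ) := by
    intro i
    have := congrArg (fun v : V => (v : ℝ)) (b.sum_repr (x i))
    simp only [Submodule.coe_sum, Submodule.coe_smul, Rat.smul_def] at this
    exact this.symm
  set d : ℕ := ∏ i, ∏ j, (r i j).den with hd
  have hd0 : 0 < d := Finset.prod_pos fun i _ => Finset.prod_pos fun j _ => (r i j).den_pos
  have hint : ∀ i j, ∃ u : ℤ, (u : ℚ) = d * r i j := by
    intro i j
    have h1 : (r i j).den ∣ d :=
      (Finset.dvd_prod_of_mem (fun j => (r i j).den) (Finset.mem_univ j)).trans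
        (Finset.dvd_prod_of_mem (fun i => ∏ j, (r i j).den) (Finset.mem_univ i))
    obtain ⟨e, he⟩ := h1
    refine ⟨e * (r i j).num, ?_⟩
    rw [he]; push_cast
    rw [← Rat.mul_den_eq_num (r i j)]; ring
  choose u hu using hint
  have hd' : (0 : ℝ) < d := by exact_mod_cast hd0
  have hform : ∀ n, ∑ j, ((∑ i, ℓ n i * u i j : ℤ) : ℝ) * (b j : ℝ) = d * ∑ i, (ℓ n i : ℝ) * ξ i := by
    intro n
    simp only [hx, Finset.mul_sum, Int.cast_sum, Finset.sum_mul]
    rw [Finset.sum_comm]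
    refine Finset.sum_congr rfl fun i _ => Finset.sum_congr rfl fun j _ => ?_
    have : (u i j : ℝ) = d * (r i j : ℝ) := by exact_mod_cast congrArg (fun q : ℚ => (q : ℝ)) (hu i j)
    push_cast; rw [this]; ring
  set U : ℝ := 1 + ∑ i, ∑ j, |(u i j : ℝ)| with hU
  have hU0 : 0 < U := by positivity
  refine crit_fin (fun j => (b j : ℝ)) (fun n j => ∑ i, ℓ n i * u i j) (c1 := d * c1) (c2 := d * c2)
    (c3 := c3 * U) (by positivity) (by positivity) (by positivity) hα hγ ?_ ?_ ?_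
  · intro n
    rw [hform, abs_mul, abs_of_pos hd', mul_assoc]
    exact mul_le_mul_of_nonneg_left (hlow n) hd'.le
  · intro n
    rw [hform, abs_mul, abs_of_pos hd', mul_assoc]
    exact mul_le_mul_of_nonneg_left (hup n) hd'.le
  · intro n j
    push_cast
    calc |∑ i, (ℓ n i : ℝ) * u i j| ≤ ∑ i, |(ℓ n i : ℝ) * u i j| := Finset.abs_sum_le_sum_abs _ _
      _ ≤ ∑ i, c3 * Real.exp (β * n) * |(u i j : ℝ)| := by
          refine Finset.sum_le_sum fun i _ => ?_
          rw [abs_mul]; exact mul_le_mul_of_nonneg_right (hco n i) (abs_nonneg _)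
      _ = c3 * Real.exp (β * n) * ∑ i, |(u i j : ℝ)| := by rw [Finset.mul_sum]
      _ ≤ c3 * Real.exp (β * n) * U := by
          refine mul_le_mul_of_nonneg_left ?_ (by positivity)
          have : ∑ i, |(u i j : ℝ)| ≤ ∑ i, ∑ j, |(u i j : ℝ)| :=
            Finset.sum_le_sum fun i _ =>
              Finset.single_le_sum (f := fun j => |(u i j : ℝ)|) (fun _ _ => abs_nonneg _) (Finset.mem_univ j)
          linarith
      _ = _ := by ring

end Pool.Agent.Lib.MP_caab05_ag.BR
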