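import Pool.Agent.Lib.MP_caab05_ag.BR.Rec

/-! The arithmetic of the factors attached to one parameter. -/

namespace Pool.Agent.Lib.MP_caab05_ag.BR

open Finset PowerSeries Nat

theorem factorial_dvd_prod_int (y : ℤ) (n : ℕ) : (n ! : ℤ) ∣ ∏ j ∈ range n, (y + j) := by
  have h := Ring.factorial_nsmul_multichoose_eq_ascPochhammer y n
  have h2 : ∀ n : ℕ, (ascPochhammer ℕ n).smeval y = ∏ j ∈ range n, (y + j) := by
    intro n
    induction n with
    | zero => simp
    | succ n ih =>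
      rw [ascPochhammer_succ_right, Polynomial.smeval_mul, ih, prod_range_succ]
      simp [Polynomial.smeval_add, Polynomial.smeval_natCast]
  rw [h2] at h
  exact ⟨Ring.multichoose y n, by rw [← h]; simp⟩

theorem factorial_dvd_ap (N : ℕ) (hN : 0 < N) (A : ℤ) (n : ℕ) :
    (n ! : ℤ) ∣ (N : ℤ) ^ n * ∏ j ∈ range n, (A + N * j) := by
  rw [← Int.natAbs_dvd_natAbs, Int.natAbs_natCast]
  refine (Nat.dvd_iff_prime_pow_dvd_dvd _ _).mpr fun p e hp he => ?_
  rw [← Int.natCast_dvd]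
  by_cases hpN : p ∣ N
  · refine Dvd.dvd.mul_right ?_ _
    have h1 : e ≤ n := by
      haveI := Fact.mk hp
      have h2 := (padicValNat_dvd_iff_le (Nat.factorial_ne_zero n)).mp he
      have h3 := padicValNat_factorial_le p n
      omega
    have : p ^ e ∣ N ^ n := (pow_dvd_pow p h1).trans (pow_dvd_pow_of_dvd hpN n)
    exact_mod_cast this
  · refine Dvd.dvd.mul_left ?_ _
    have hc : IsCoprime (N : ℤ) ((p ^ e : ℕ) : ℤ) :=
      Nat.isCoprime_iff_coprime.mpr (((Nat.Prime.coprime_iff_not_dvd hp).mpr hpN).symm.pow_right e)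
    obtain ⟨u, v, huv⟩ := hc
    have h1 : ((p ^ e : ℕ) : ℤ) ∣ ∏ j ∈ range n, (A * u + j) :=
      (Int.natCast_dvd_natCast.mpr he).trans (factorial_dvd_prod_int _ n)
    have h2 : ∏ j ∈ range n, (A + N * j) ≡ ∏ j ∈ range n, (N * (A * u + j)) [ZMOD ((p ^ e : ℕ) : ℤ)] := by
      refine Int.ModEq.prod fun j _ => ?_
      rw [Int.modEq_iff_dvd]
      exact ⟨-(A * v), by linear_combination A * huv⟩
    rw [prod_mul_distrib] at h2
    exact (Int.ModEq.dvd_iff h2).mpr (Dvd.dvd.mul_left h1 _)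

theorem poch_int {N : ℕ} (hN : 0 < N) {x : ℚ} (hx : ∃ A : ℤ, (A : ℚ) = N * x) (n : ℕ) :
    ∃ u : ℤ, (u : ℚ) = (N : ℚ) ^ (2 * n) * ((∏ j ∈ range n, (x + j)) / n !) := by
  obtain ⟨A, hA⟩ := hx
  obtain ⟨u, hu⟩ := factorial_dvd_ap N hN A n
  refine ⟨u, ?_⟩
  have h1 := congrArg (fun z : ℤ => (z : ℚ)) hu
  push_cast at h1
  have h2 : ∏ j ∈ range n, ((A : ℚ) + N * j) = (N : ℚ) ^ n * ∏ j ∈ range n, (x + j) := by
    rw [← card_range n, ← prod_const, card_range, ← prod_mul_distrib]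
    exact prod_congr rfl fun j _ => by rw [hA]; ring
  rw [h2] at h1
  field_simp
  rw [mul_comm (u : ℚ), ← h1]; ring

/-- The factor attached to one parameter `x`. -/
noncomputable def FF (x : ℚ) (m i j : ℕ) : ℚ⟦X⟧ :=
  C (∏ n ∈ range m, (1 - x + n)) * (∏ n ∈ range j, linv (-((n : ℚ) + 1)))
    * (∏ n ∈ range (m - i), linv ((n : ℚ) + 1)) * ∏ n ∈ Ico j i, linv (x - ((n : ℚ) + 1))

theorem FF_chain {x : ℚ} (hx : x < 1) (m : ℕ) {i j : ℕ} (hj : j < i) :
    FF x m i (j + 1) * yy (j + 1) = FF x m i j * (C (x - ((j + 1 : ℕ) : ℚ)) + X) := by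
  unfold FF yy
  rw [prod_range_succ, prod_eq_prod_Ico_succ_bot hj]
  have h1 := lin_mul_linv (c := -((j : ℚ) + 1)) (by intro h; have : (0 : ℚ) < j + 1 := by positivity
                                                    linarith)
  have h2 := lin_mul_linv (c := x - ((j : ℚ) + 1)) (by
    intro h; have : (0 : ℚ) ≤ j := by positivity
    linarith)
  push_cast
  set P := C (∏ n ∈ range m, (1 - x + n)) * (∏ n ∈ range j, linv (-((n : ℚ) + 1)))
    * (∏ n ∈ range (m - i), linv ((n : ℚ) + 1)) * ∏ n ∈ Ico (j + 1) i, linv (x - ((n : ℚ) + 1))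
  linear_combination P * h1 - P * h2

theorem FF_top {x : ℚ} (hx : x < 1) {m j : ℕ} (hj : j + 1 ≤ m) :
    FF x m (j + 1) j * (C (x - ((j + 1 : ℕ) : ℚ)) + X)
      * ∏ n ∈ (Icc 1 m).erase (j + 1), (C ((n : ℚ) - ((j + 1 : ℕ) : ℚ)) + X)
      = C (∏ n ∈ range m, (1 - x + n)) := by
  have e1 : (Icc 1 m).erase (j + 1) = Ico 1 (j + 1) ∪ Ico (j + 2) (m + 1) := by
    ext n; simp only [mem_erase, mem_Icc, mem_union, mem_Ico]; omega
  have e2 : ∏ n ∈ Ico 1 (j + 1), (C ((n : ℚ) - ((j + 1 : ℕ) : ℚ)) + X : ℚ⟦X⟧)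
      = ∏ n ∈ range j, (C (-((n : ℚ) + 1)) + X) := by
    rw [prod_Ico_eq_prod_range, Nat.add_sub_cancel, ← prod_range_reflect]
    refine prod_congr rfl fun n hn => ?_
    have := mem_range.mp hn
    obtain ⟨d, rfl⟩ : ∃ d, j = n + 1 + d := ⟨j - (n + 1), by omega⟩
    rw [show n + 1 + d - 1 - n = d by omega]
    push_cast; congr 2; ring
  have e3 : ∏ n ∈ Ico (j + 2) (m + 1), (C ((n : ℚ) - ((j + 1 : ℕ) : ℚ)) + X : ℚ⟦X⟧)
      = ∏ n ∈ range (m - (j + 1)), (C ((n : ℚ) + 1) + X) := by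
    rw [prod_Ico_eq_prod_range, show m + 1 - (j + 2) = m - (j + 1) by omega]
    refine prod_congr rfl fun n _ => ?_
    push_cast; congr 2; ring
  rw [e1, prod_union (by
    rw [Finset.disjoint_left]; intro n h1 h2; simp only [mem_Ico] at h1 h2; omega), e2, e3]
  unfold FF
  have h1 : (∏ n ∈ range j, (C (-((n : ℚ) + 1)) + X)) * ∏ n ∈ range j, linv (-((n : ℚ) + 1)) = 1 := by
    rw [← prod_mul_distrib]
    exact prod_eq_one fun n _ => lin_mul_linv (by
      intro h; have : (0 : ℚ) < n + 1 := by positivity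
      linarith)
  have h2 : (∏ n ∈ range (m - (j + 1)), (C ((n : ℚ) + 1) + X))
      * ∏ n ∈ range (m - (j + 1)), linv ((n : ℚ) + 1) = 1 := by
    rw [← prod_mul_distrib]
    exact prod_eq_one fun n _ => lin_mul_linv (by positivity)
  have h3 := lin_mul_linv (c := x - ((j : ℚ) + 1)) (by
    intro h; have : (0 : ℚ) ≤ j := by positivity
    linarith)
  rw [Nat.Ico_succ_singleton, prod_singleton]
  push_cast at h3 ⊢
  set P := (C (∏ n ∈ range m, (1 - x + n)) : ℚ⟦X⟧)
  set a1 := ∏ n ∈ range j, (C (-((n : ℚ) + 1)) + X : ℚ⟦X⟧)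
  set b1 := ∏ n ∈ range j, linv (-((n : ℚ) + 1))
  set a2 := ∏ n ∈ range (m - (j + 1)), (C ((n : ℚ) + 1) + X : ℚ⟦X⟧)
  set b2 := ∏ n ∈ range (m - (j + 1)), linv ((n : ℚ) + 1)
  linear_combination P * (a1 * b1) * (a2 * b2) * h3 + P * (a2 * b2) * h1 + P * h2

theorem FF_factor {x : ℚ} (hx : x < 1) {m i j : ℕ} (hj : j ≤ i) (hi : i ≤ m) :
    FF x m i j = C ((-1) ^ i * ((∏ n ∈ range j, (1 - x + n)) / j !)
        * ((∏ n ∈ range (m - i), ((i : ℚ) + 1 - x + n)) / (m - i)!))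
      * ((∏ n ∈ range j, C (-((n : ℚ) + 1)) * linv (-((n : ℚ) + 1)))
        * (∏ n ∈ range (m - i), C ((n : ℚ) + 1) * linv ((n : ℚ) + 1))
        * ∏ n ∈ Ico j i, C (x - ((n : ℚ) + 1)) * linv (x - ((n : ℚ) + 1))) := by
  have hne : ∀ n : ℕ, x - ((n : ℚ) + 1) ≠ 0 := by
    intro n h; have : (0 : ℚ) ≤ n := by positivity
    linarith
  unfold FF
  rw [prod_linv (range j) _ (fun n _ h => by
      have : (0 : ℚ) < n + 1 := by positivity
      linarith),
    prod_linv (range (m - i)) _ (fun n _ => by positivity), prod_linv (Ico j i) _ (fun n _ => hne n)]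
  have hf : ∀ j : ℕ, (j ! : ℚ) = ∏ n ∈ range j, ((n : ℚ) + 1) := by
    intro j
    rw [← Finset.prod_range_add_one_eq_factorial]; push_cast; rfl
  have e1 : ∏ n ∈ range m, (1 - x + n) = (∏ n ∈ range j, (1 - x + n)) * (∏ n ∈ Ico j i, (1 - x + n))
      * ∏ n ∈ range (m - i), ((i : ℚ) + 1 - x + n) := by
    rw [prod_range_mul_prod_Ico _ hj, ← prod_range_mul_prod_Ico _ hi, prod_Ico_eq_prod_range]
    congr 1
    exact prod_congr rfl fun n _ => by push_cast; ring
  have e2 : ∏ n ∈ range j, (-((n : ℚ) + 1))⁻¹ = (-1) ^ j * (j ! : ℚ)⁻¹ := by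
    rw [hf, ← prod_inv_distrib, ← card_range j, ← prod_const, card_range, ← prod_mul_distrib]
    exact prod_congr rfl fun n _ => by rw [inv_neg]; ring
  have e3 : ∏ n ∈ range (m - i), ((n : ℚ) + 1)⁻¹ = ((m - i)! : ℚ)⁻¹ := by
    rw [hf, prod_inv_distrib]
  have e4 : (∏ n ∈ Ico j i, (1 - x + n)) * ∏ n ∈ Ico j i, (x - ((n : ℚ) + 1))⁻¹ = (-1) ^ (i - j) := by
    rw [← prod_mul_distrib, ← Nat.card_Ico, ← prod_const]
    refine prod_congr rfl fun n _ => ?_
    have := hne n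
    field_simp; ring
  have e5 : ((-1 : ℚ)) ^ i = (-1) ^ j * (-1) ^ (i - j) := by
    rw [← pow_add]; congr 1; omega
  have key : (∏ n ∈ range m, (1 - x + n)) * (∏ n ∈ range j, (-((n : ℚ) + 1))⁻¹)
      * (∏ n ∈ range (m - i), ((n : ℚ) + 1)⁻¹) * ∏ n ∈ Ico j i, (x - ((n : ℚ) + 1))⁻¹
      = (-1) ^ i * ((∏ n ∈ range j, (1 - x + n)) / j !)
        * ((∏ n ∈ range (m - i), ((i : ℚ) + 1 - x + n)) / (m - i)!) := by
    rw [e1, e2, e3, e5, ← e4]; ring
  rw [← key]
  simp only [map_mul]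
  ring

theorem FF_mem {N : ℕ} (hN : 0 < N) {x : ℚ} (hx0 : 0 < x) (hx : x < 1)
    (hxN : ∃ A : ℤ, (A : ℚ) = N * x) {m i j D : ℕ} (hj : j ≤ i) (hi : i ≤ m)
    (hD : ∀ n, 1 ≤ n → n ≤ N * m → n ∣ D) :
    C ((N : ℚ) ^ (2 * m)) * FF x m i j ∈ ZS D := by
  rw [FF_factor hx hj hi, ← mul_assoc, ← map_mul]
  obtain ⟨A, hA⟩ := hxN
  have hD' : ∀ n, n < m → ∃ u : ℕ, D = (n + 1) * u := fun n hn =>
    hD (n + 1) (by omega) (by nlinarith)
  refine mul_mem (C_mem_of ?_) (mul_mem (mul_mem (prod_mem fun n hn => ?_) (prod_mem fun n hn => ?_))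
    (prod_mem fun n hn => ?_))
  · obtain ⟨u, hu⟩ := poch_int hN (x := 1 - x) ⟨N - A, by push_cast; rw [hA]; ring⟩ j
    obtain ⟨v, hv⟩ := poch_int hN (x := (i : ℚ) + 1 - x) ⟨N * (i + 1) - A, by push_cast; rw [hA]; ring⟩ (m - i)
    refine ⟨(-1) ^ i * u * v * N ^ (2 * (i - j)), ?_⟩
    push_cast
    rw [hu, hv, show 2 * m = 2 * j + 2 * (m - i) + 2 * (i - j) by omega, pow_add, pow_add]; ring
  · obtain ⟨u, hu⟩ := hD' n (by have := mem_range.mp hn; omega)
    refine unit_mem (by intro h; have : (0 : ℚ) < n + 1 := by positivity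
                        linarith) ⟨-u, ?_⟩
    rw [hu]; push_cast; ring
  · obtain ⟨u, hu⟩ := hD' n (by have := mem_range.mp hn; omega)
    refine unit_mem (by positivity) ⟨u, ?_⟩
    rw [hu]; push_cast; ring
  · have hn' := mem_Ico.mp hn
    have hN' : (0 : ℚ) < N := by exact_mod_cast hN
    have hA0 : 0 < A := by
      have : (0 : ℚ) < A := by rw [hA]; positivity
      exact_mod_cast this
    have hA1 : A < N := by
      have : (A : ℚ) < N := by rw [hA]; nlinarith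
      exact_mod_cast this
    obtain ⟨B, hB⟩ : ∃ B : ℕ, (B : ℤ) = N * (n + 1) - A :=
      ⟨(N * (n + 1) - A).toNat, Int.toNat_of_nonneg (by nlinarith)⟩
    have hB1 : 1 ≤ B := by
      have : (1 : ℤ) ≤ B := by rw [hB]; nlinarith
      exact_mod_cast this
    have hB2 : B ≤ N * m := by
      have h1 : (n : ℤ) + 1 ≤ m := by exact_mod_cast (by omega : n + 1 ≤ m)
      have : (B : ℤ) ≤ N * m := by rw [hB]; nlinarith
      exact_mod_cast this
    obtain ⟨u, hu⟩ := hD B hB1 hB2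
    refine unit_mem (by intro h; have : (0 : ℚ) ≤ n := by positivity
                        linarith) ⟨-(N * u), ?_⟩
    have hB' : (B : ℚ) = N * (n + 1) - A := by exact_mod_cast hB
    rw [hu]; push_cast; rw [hB', hA]; ring

theorem FF_nrm {N : ℕ} (hN : 0 < N) {x : ℚ} (hx0 : 0 < x) (hx : x < 1)
    (hxN : ∃ A : ℤ, (A : ℚ) = N * x) {m i j : ℕ} (hj : j ≤ i) (hi : i ≤ m) (k : ℕ) :
    nrm k (1 / (2 * N)) (FF x m i j) ≤ 4 ^ m := by
  have hN' : (1 : ℚ) ≤ N := by exact_mod_cast hN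
  have hρ : (0 : ℚ) ≤ 1 / (2 * N) := by positivity
  have hρ2 : 2 * (1 / (2 * N) : ℚ) = 1 / N := by field_simp
  have hρ3 : (1 / N : ℚ) ≤ 1 := by rw [div_le_one (by positivity)]; exact hN'
  rw [FF_factor hx hj hi]
  obtain ⟨A, hA⟩ := hxN
  have hx2 : x + 1 / N ≤ 1 := by
    have h1 : A < N := by
      have : (A : ℚ) < N := by rw [hA]; nlinarith
      exact_mod_cast this
    have h2 : (A : ℚ) + 1 ≤ N := by exact_mod_cast h1
    have : x = A / N := by rw [hA]; field_simp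
    rw [this, ← add_div, div_le_one (by positivity)]; exact h2
  have u1 := nrm_prod (k := k) hρ (range j) (fun n => C (-((n : ℚ) + 1)) * linv (-((n : ℚ) + 1)))
    (fun _ => 2) fun n _ => nrm_unit hρ (by intro h; have : (0 : ℚ) < n + 1 := by positivity
                                            linarith) (by
      rw [hρ2, abs_neg, abs_of_nonneg (by positivity)]
      have : (0 : ℚ) ≤ n := by positivity
      linarith)
  have u2 := nrm_prod (k := k) hρ (range (m - i)) (fun n => C ((n : ℚ) + 1) * linv ((n : ℚ) + 1))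
    (fun _ => 2) fun n _ => nrm_unit hρ (by positivity) (by
      rw [hρ2, abs_of_nonneg (by positivity)]
      have : (0 : ℚ) ≤ n := by positivity
      linarith)
  have u3 := nrm_prod (k := k) hρ (Ico j i) (fun n => C (x - ((n : ℚ) + 1)) * linv (x - ((n : ℚ) + 1)))
    (fun _ => 2) fun n _ => nrm_unit hρ (by intro h; have : (0 : ℚ) ≤ n := by positivity
                                            linarith) (by
      have : (0 : ℚ) ≤ n := by positivity
      rw [hρ2, abs_of_nonpos (by linarith)]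
      linarith)
  simp only [prod_const, card_range, Nat.card_Ico] at u1 u2 u3
  have u4 := (nrm_mul hρ _ _).trans (mul_le_mul ((nrm_mul hρ _ _).trans
    (mul_le_mul u1 u2 (nrm_nonneg hρ _) (by positivity))) u3 (nrm_nonneg hρ _) (by positivity))
  rw [← pow_add, ← pow_add, show j + (m - i) + (i - j) = m by omega] at u4
  refine (nrm_mul hρ _ _).trans ?_
  rw [show (4 : ℚ) ^ m = 2 ^ m * 2 ^ m by rw [← mul_pow]; norm_num]
  refine mul_le_mul ((nrm_C _).trans ?_) u4 (nrm_nonneg hρ _) (by positivity)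
  have p1 : 0 ≤ ∏ n ∈ range j, (1 - x + n) := prod_nonneg fun n _ => by
    have : (0 : ℚ) ≤ n := by positivity
    linarith
  have p2 : 0 ≤ ∏ n ∈ range (m - i), ((i : ℚ) + 1 - x + n) := prod_nonneg fun n _ => by
    have : (0 : ℚ) ≤ n := by positivity
    have : (0 : ℚ) ≤ i := by positivity
    linarith
  rw [abs_mul, abs_mul, abs_pow, abs_neg, abs_one, one_pow, one_mul,
    abs_of_nonneg (by positivity), abs_of_nonneg (by positivity)]
  have q1 : (∏ n ∈ range j, (1 - x + n)) / j ! ≤ 1 := by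
    rw [div_le_one (by positivity)]; exact poch_le (by linarith) (by linarith) j
  have q2 : (∏ n ∈ range (m - i), ((i : ℚ) + 1 - x + n)) / (m - i)! ≤ 2 ^ m := by
    rw [div_le_iff₀ (by positivity)]
    have h2 : ∏ n ∈ range (m - i), ((i : ℚ) + 1 + n) = (m - i)! * (i + (m - i)).choose (m - i) := by
      have := Nat.ascFactorial_eq_factorial_mul_choose i (m - i)
      rw [Nat.ascFactorial_eq_prod_range] at this
      exact_mod_cast this
    have h3 : ((i + (m - i)).choose (m - i) : ℚ) ≤ 2 ^ m := by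
      rw [show i + (m - i) = m by omega]
      exact_mod_cast Nat.choose_le_two_pow _ _
    calc ∏ n ∈ range (m - i), ((i : ℚ) + 1 - x + n) ≤ ∏ n ∈ range (m - i), ((i : ℚ) + 1 + n) :=
          prod_le_prod (fun n _ => by
            have : (0 : ℚ) ≤ n := by positivity
            have : (0 : ℚ) ≤ i := by positivity
            linarith) fun n _ => by linarith
      _ ≤ _ := by rw [h2, mul_comm]; exact mul_le_mul_of_nonneg_right h3 (by positivity)
  calc _ ≤ 1 * (2 : ℚ) ^ m := mul_le_mul q1 q2 (by positivity) zero_le_one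
    _ = _ := one_mul _

end Pool.Agent.Lib.MP_caab05_ag.BR
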