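import Pool.Agent.Lib.MP_caab05_ag.BR.Factor

/-! The linear forms: integrality and size of the coefficients. -/

namespace Pool.Agent.Lib.MP_caab05_ag.BR

open Finset PowerSeries Nat

/-- `x` is an integral combination of the `ξ j` with coefficients bounded by `B`. -/
def Rep {J : Type} [Fintype J] (ξ : J → ℝ) (B x : ℝ) : Prop :=
  ∃ ℓ : J → ℤ, (∀ j, |(ℓ j : ℝ)| ≤ B) ∧ x = ∑ j, (ℓ j : ℝ) * ξ j

section
variable {J : Type} [Fintype J] {ξ : J → ℝ}

theorem Rep.zero {B : ℝ} (hB : 0 ≤ B) : Rep ξ B 0 :=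
  ⟨fun _ => 0, fun _ => by simpa using hB, by simp⟩

theorem Rep.add {B B' x x' : ℝ} (h : Rep ξ B x) (h' : Rep ξ B' x') : Rep ξ (B + B') (x + x') := by
  obtain ⟨l, hl, rfl⟩ := h
  obtain ⟨l', hl', rfl⟩ := h'
  refine ⟨fun j => l j + l' j, fun j => ?_, ?_⟩
  · push_cast; exact (abs_add_le _ _).trans (add_le_add (hl j) (hl' j))
  · rw [← sum_add_distrib]; exact sum_congr rfl fun j _ => by push_cast; ring

theorem Rep.mono {B B' x : ℝ} (h : Rep ξ B x) (hB : B ≤ B') : Rep ξ B' x := by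
  obtain ⟨l, hl, rfl⟩ := h
  exact ⟨l, fun j => (hl j).trans hB, rfl⟩

theorem Rep.congr {B x x' : ℝ} (h : Rep ξ B x) (hx : x = x') : Rep ξ B x' := hx ▸ h

/-- `q` is an integer of absolute value at most `M`. -/
def Good (M : ℝ) (q : ℚ) : Prop := (∃ u : ℤ, (u : ℚ) = q) ∧ |(q : ℝ)| ≤ M

theorem Good.neg {M : ℝ} {q : ℚ} (h : Good M q) : Good M (-q) := by
  obtain ⟨⟨u, rfl⟩, h⟩ := h
  exact ⟨⟨-u, by simp⟩, by simpa using h⟩

theorem Rep.smul {B M x : ℝ} {q : ℚ} (hq : Good M q) (h : Rep ξ B x) :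
    Rep ξ (M * B) (q * x) := by
  obtain ⟨l, hl, rfl⟩ := h
  obtain ⟨⟨u, rfl⟩, hu⟩ := hq
  refine ⟨fun j => u * l j, fun j => ?_, ?_⟩
  · push_cast at hu ⊢
    rw [abs_mul]
    exact mul_le_mul hu (hl j) (abs_nonneg _) ((abs_nonneg _).trans hu)
  · rw [mul_sum]; exact sum_congr rfl fun j _ => by push_cast; ring

theorem Rep.sum {ι : Type*} {B : ℝ} (s : Finset ι) (f : ι → ℝ) (h : ∀ i ∈ s, Rep ξ B (f i)) :
    Rep ξ (s.card * B) (∑ i ∈ s, f i) := by
  classical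
  induction s using Finset.induction_on with
  | empty => simpa using Rep.zero le_rfl
  | insert a s ha ih =>
    rw [sum_insert ha, card_insert_of_notMem ha]
    refine ((h a (mem_insert_self _ _)).add (ih fun i hi => h i (mem_insert_of_mem hi))).mono ?_
    push_cast; exact le_of_eq (by ring)

end

variable {k : ℕ}

theorem unfold_rec {a : Fin k → ℚ} (ha : ∀ l, 0 < a l ∧ a l < 1) {z : ℝ} (hz0 : z ≠ 0)
    (hz : |z| < 1) (hk : 1 ≤ k) {J : Type} [Fintype J] (ξ : J → ℝ) {W Δ M : ℝ} (hMW : 0 ≤ M * W)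
    {c : ℚ} {m i : ℕ} (R : ℕ → ℚ⟦X⟧)
    (hchain : ∀ j, j < i → R (j + 1) * yy (j + 1) ^ k = R j * Polynomial.aeval (yy (j + 1)) (AP a))
    (hel : ∀ e ≤ m, Rep ξ W (Δ * z⁻¹ ^ e) ∧ ∀ p < k, Rep ξ W (Δ * z⁻¹ ^ e * XX a z p))
    (hα : ∀ j < i, ∀ p, Good M (c * coeff (k - 1) (R j * quo k (Polynomial.X ^ k) (yy j) p)))
    (hβ : ∀ j < i, ∀ p, Good M (c * coeff (k - 1) (R j * quo k (AP a) (yy (j + 1)) p)))
    (h0 : Good M (c * coeff 0 (R 0))) (j : ℕ) (hj : j < i) (e : ℕ) (he : e + j + 1 ≤ m) :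
    Rep ξ ((j + 1) * ((2 * k + 1) * (M * W)))
      (c * Δ * z⁻¹ ^ e * Lam a z (R j * Polynomial.aeval (yy (j + 1)) (AP a)) (j + 1)) := by
  have key : ∀ j < i, ∀ e, e + j + 1 ≤ m → ∀ B : ℝ,
      Rep ξ B (c * Δ * z⁻¹ ^ (e + 1) * Lam a z (R j * yy j ^ k) j) →
      Rep ξ (B + (2 * k + 1) * (M * W))
        (c * Δ * z⁻¹ ^ e * Lam a z (R j * Polynomial.aeval (yy (j + 1)) (AP a)) (j + 1)) := by
    intro j hj e he B hB
    have hs := step ha hz0 hz hk (R j) j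
    have h1 := Rep.sum (ξ := ξ) (range k) _ fun p hp =>
      ((Rep.smul (hα j hj p) ((hel (e + 1) (by omega)).2 p (mem_range.mp hp))).add
        (Rep.smul (hβ j hj p).neg ((hel e (by omega)).2 p (mem_range.mp hp))))
    have h2 : Rep ξ (M * W) (-(c * Δ * z⁻¹ ^ (e + 1)) * (if j = 0 then ((coeff 0 (R j) : ℚ) : ℝ) else 0)) := by
      split_ifs with h
      · subst h
        exact (Rep.smul h0.neg (hel (e + 1) (by omega)).1).congr (by push_cast; ring)
      · simpa using Rep.zero hMW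
    refine (((hB.add h1).add h2).mono (by rw [card_range]; exact le_of_eq (by ring))).congr ?_
    have e1 : Lam a z (R j * Polynomial.aeval (yy (j + 1)) (AP a)) (j + 1)
        = z⁻¹ * (z * Lam a z (R j * Polynomial.aeval (yy (j + 1)) (AP a)) (j + 1)) := by
      field_simp
    rw [e1, hs]
    simp only [mul_add, mul_sub, mul_sum]
    have e2 : z⁻¹ * z = 1 := inv_mul_cancel₀ hz0
    congr 1
    · congr 1
      · ring
      · refine sum_congr rfl fun p _ => ?_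
        push_cast
        linear_combination (c * Δ * z⁻¹ ^ e * XX a z p
          * ((coeff (k - 1) (R j * quo k (AP a) (yy (j + 1)) p) : ℚ) : ℝ)) * e2
    · ring
  induction j generalizing e with
  | zero =>
    have := key 0 hj e he 0 (by
      have : Lam a z (R 0 * yy 0 ^ k) 0 = 0 := by simp [Lam, gg_zero hk]
      rw [this, mul_zero]; exact Rep.zero le_rfl)
    simpa using this
  | succ j ih =>
    have h1 := ih (by omega) (e + 1) (by omega)
    rw [← hchain j (by omega)] at h1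
    refine (key (j + 1) hj e he _ h1).mono (le_of_eq ?_)
    push_cast; ring

/-- The binomial factor. -/
noncomputable def Bn (r m i : ℕ) : ℚ⟦X⟧ := ∏ b ∈ range r, binS (-((i + b * m : ℕ) : ℚ)) m

noncomputable def RR (a : Fin k → ℚ) (r m i j : ℕ) : ℚ⟦X⟧ := Bn r m i * ∏ l, FF (a l) m i j

theorem aeval_AP (a : Fin k → ℚ) (j : ℕ) :
    Polynomial.aeval (yy j) (AP a) = ∏ l, (C (a l - (j : ℚ)) + X) := by
  unfold AP yy
  rw [map_prod]
  refine prod_congr rfl fun l _ => ?_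
  simp only [map_add, Polynomial.aeval_X, Polynomial.aeval_C, map_neg, map_sub]
  rw [show algebraMap ℚ ℚ⟦X⟧ (a l) = C (a l) from rfl]; ring

theorem RR_chain {a : Fin k → ℚ} (ha : ∀ l, 0 < a l ∧ a l < 1) (r m : ℕ) {i j : ℕ} (hj : j < i) :
    RR a r m i (j + 1) * yy (j + 1) ^ k = RR a r m i j * Polynomial.aeval (yy (j + 1)) (AP a) := by
  rw [aeval_AP, RR, RR, mul_assoc, mul_assoc, ← prod_mul_distrib]
  have : yy (j + 1) ^ k = ∏ _l : Fin k, yy (j + 1) := by simp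
  rw [this, ← prod_mul_distrib]
  congr 1
  exact prod_congr rfl fun l _ => FF_chain (ha l).2 m hj

section
variable {N : ℕ} (hN : 0 < N) {a : Fin k → ℚ} (ha : ∀ l, 0 < a l ∧ a l < 1)
  (haN : ∀ l, ∃ A : ℤ, (A : ℚ) = N * a l)
include hN ha haN

theorem RR_mem (r : ℕ) {m i j D : ℕ} (hj : j ≤ i) (hi : i ≤ m) (hD : ∀ n, 1 ≤ n → n ≤ N * m → n ∣ D) :
    C ((N : ℚ) ^ (2 * m * k)) * RR a r m i j ∈ ZS D := by
  have e : C ((N : ℚ) ^ (2 * m * k)) * RR a r m i j
      = Bn r m i * ∏ l, (C ((N : ℚ) ^ (2 * m)) * FF (a l) m i j) := by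
    rw [prod_mul_distrib, RR, pow_mul _ (2 * m) k, map_pow]
    rw [prod_const, Finset.card_univ, Fintype.card_fin]; ring
  rw [e]
  refine mul_mem (prod_mem fun b _ => binS_mem hD m (by nlinarith) _) (prod_mem fun l _ => ?_)
  exact FF_mem hN (ha l).1 (ha l).2 (haN l) hj hi hD

theorem RR_nrm (r : ℕ) {m i j : ℕ} (hj : j ≤ i) (hi : i ≤ m) :
    nrm k (1 / (2 * N)) (RR a r m i j) ≤ 2 ^ (r * (r + 1) * m) * 4 ^ (m * k) := by
  have hN' : (1 : ℚ) ≤ N := by exact_mod_cast hN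
  have hρ : (0 : ℚ) ≤ 1 / (2 * N) := by positivity
  have hρ1 : (1 / (2 * N) : ℚ) ≤ 1 := by rw [div_le_one (by positivity)]; linarith
  refine (nrm_mul hρ _ _).trans (mul_le_mul ?_ ?_ (nrm_nonneg hρ _) (by positivity))
  · refine (nrm_prod hρ _ _ (fun _ => (2 : ℚ) ^ ((r + 1) * m)) fun b hb => ?_).trans ?_
    · refine (nrm_binS hρ hρ1 _ _).trans (pow_le_pow_right₀ (by norm_num) ?_)
      have := mem_range.mp hb
      nlinarith
    · rw [prod_const, card_range, ← pow_mul]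
      exact le_of_eq (by congr 1; ring)
  · refine (nrm_prod hρ _ _ (fun _ => (4 : ℚ) ^ m) fun l _ => ?_).trans ?_
    · exact FF_nrm hN (ha l).1 (ha l).2 (haN l) hj hi k
    · simp [← pow_mul]

omit hN ha in
theorem AP_coeff (n : ℕ) : ∃ u : ℤ, (u : ℚ) = (N : ℚ) ^ k * (AP a).coeff n := by
  choose A hA using haN
  refine ⟨(∏ l, (Polynomial.C (N : ℤ) * Polynomial.X + Polynomial.C (A l))).coeff n, ?_⟩
  have : (∏ l, (Polynomial.C (N : ℤ) * Polynomial.X + Polynomial.C (A l))).map (Int.castRingHom ℚ)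
      = Polynomial.C ((N : ℚ) ^ k) * AP a := by
    rw [Polynomial.map_prod, AP, map_pow]
    have : (Polynomial.C (N : ℚ)) ^ k = ∏ _l : Fin k, Polynomial.C (N : ℚ) := by simp
    rw [this, ← prod_mul_distrib]
    refine prod_congr rfl fun l _ => ?_
    rw [Polynomial.map_add, Polynomial.map_mul, Polynomial.map_C, Polynomial.map_C,
      Polynomial.map_X, eq_intCast (Int.castRingHom ℚ), eq_intCast (Int.castRingHom ℚ), hA,
      Int.cast_natCast, map_mul]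
    ring
  rw [← Polynomial.coeff_C_mul, ← this, Polynomial.coeff_map]; rfl

end

theorem quo_mem {D : ℕ} {c : ℚ} {A : Polynomial ℚ} (hA : ∀ n, ∃ u : ℤ, (u : ℚ) = c * A.coeff n)
    (j p : ℕ) : C c * quo k A (yy j) p ∈ ZS D := by
  unfold quo
  rw [mul_sum]
  refine sum_mem fun n _ => ?_
  split_ifs
  · rw [← mul_assoc, ← map_mul]
    refine mul_mem (C_mem_of (hA n)) (pow_mem (add_mem (C_mem_of ⟨-j, by simp⟩) (X_mem D)) _)
  · simp [zero_mem]

theorem quo_nrm {ρ : ℚ} (hρ : 0 ≤ ρ) (hρ1 : ρ ≤ 1) (A : Polynomial ℚ) {j m : ℕ} (hj : j ≤ m) (p : ℕ) :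
    nrm k ρ (quo k A (yy j) p) ≤ (∑ n ∈ range (k + 1), |A.coeff n|) * 2 ^ (m * k) := by
  unfold quo
  refine (nrm_sum hρ _ _).trans ?_
  rw [sum_mul]
  refine sum_le_sum fun n hn => ?_
  have hn' := mem_range.mp hn
  split_ifs
  · have h1 : nrm k ρ (yy j) ≤ 2 ^ m := by
      refine (nrm_lin hρ _).trans ?_
      rw [abs_neg, abs_of_nonneg (by positivity)]
      have h2 : ((m + 1 : ℕ) : ℚ) ≤ ((2 ^ m : ℕ) : ℚ) := by
        exact_mod_cast Nat.lt_two_pow_self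
      have h3 : (j : ℚ) ≤ m := by exact_mod_cast hj
      push_cast at h2; linarith
    refine (nrm_mul hρ _ _).trans (mul_le_mul (nrm_C _) ((nrm_pow hρ _ h1 _).trans ?_)
      (nrm_nonneg hρ _) (abs_nonneg _))
    rw [pow_mul]
    exact pow_le_pow_right₀ (one_le_pow₀ (by norm_num)) (by omega)
  · simp only [nrm, map_zero, abs_zero, zero_mul, sum_const_zero]; positivity

theorem good_coeff {N D : ℕ} (hN : 0 < N) {c1 c2 b1 b2 : ℚ} (hc1 : 0 ≤ c1) (hc2 : 0 ≤ c2)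
    {S T : ℚ⟦X⟧} (hS : C c1 * S ∈ ZS D) (hT : C c2 * T ∈ ZS D)
    (hS' : nrm k (1 / (2 * N)) S ≤ b1) (hT' : nrm k (1 / (2 * N)) T ≤ b2) {n : ℕ} (hn : n < k) :
    Good ((c1 * c2 * D ^ (k - 1) * ((2 * N) ^ k * (b1 * b2)) : ℚ) : ℝ)
      (c1 * c2 * D ^ (k - 1) * coeff n (S * T)) := by
  have hN' : (1 : ℚ) ≤ N := by exact_mod_cast hN
  have hρ : (0 : ℚ) ≤ 1 / (2 * N) := by positivity
  constructor
  · obtain ⟨u, hu⟩ := mem_ZS.mp (mul_mem hS hT) n
    refine ⟨u * D ^ (k - 1 - n), ?_⟩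
    have e : C c1 * S * (C c2 * T) = C (c1 * c2) * (S * T) := by rw [map_mul]; ring
    rw [e, coeff_C_mul] at hu
    push_cast
    rw [hu, show k - 1 = n + (k - 1 - n) by omega, pow_add, Nat.add_sub_cancel_left]; ring
  · have h1 := (coeff_le_nrm hρ (S * T) hn).trans ((nrm_mul hρ _ _).trans
      (mul_le_mul hS' hT' (nrm_nonneg hρ _) ((nrm_nonneg hρ _).trans hS')))
    have h2 : |coeff n (S * T)| ≤ (2 * N) ^ k * (b1 * b2) := by
      have h3 : |coeff n (S * T)| = (2 * N) ^ n * (|coeff n (S * T)| * (1 / (2 * N)) ^ n) := by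
        rw [one_div, inv_pow]; field_simp
      rw [h3]
      exact mul_le_mul (pow_le_pow_right₀ (by linarith) hn.le) h1 (by positivity) (by positivity)
    have h4 : |c1 * c2 * D ^ (k - 1) * coeff n (S * T)|
        ≤ c1 * c2 * D ^ (k - 1) * ((2 * N) ^ k * (b1 * b2)) := by
      rw [abs_mul, abs_of_nonneg (by positivity)]
      exact mul_le_mul_of_nonneg_left h2 (by positivity)
    exact_mod_cast h4

/-- The factor of the general term attached to one parameter. -/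
def BB (x : ℚ) (m t : ℕ) : ℚ :=
  (∏ n ∈ range m, (1 - x + n)) * (∏ n ∈ range t, (x + n)) / (t + m)!

/-- The general coefficient of the linear form. -/
def TT (a : Fin k → ℚ) (r m t : ℕ) : ℚ :=
  (t.descFactorial (r * m) : ℚ) / (m ! : ℚ) ^ r * ∏ l, BB (a l) m t

/-- The linear form. -/
noncomputable def LL (a : Fin k → ℚ) (z : ℝ) (r m : ℕ) : ℝ := ∑' t : ℕ, (TT a r m t : ℝ) * z ^ t

theorem prod_range_mul' {M : Type*} [CommMonoid M] (f : ℕ → M) (r m : ℕ) :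
    ∏ n ∈ range (r * m), f n = ∏ b ∈ range r, ∏ n ∈ range m, f (b * m + n) := by
  induction r with
  | zero => simp
  | succ r ih => rw [Nat.succ_mul, prod_range_add, ih, prod_range_succ]

theorem descFactorial_cast (t R : ℕ) : (t.descFactorial R : ℚ) = ∏ n ∈ range R, ((t : ℚ) - n) := by
  induction R with
  | zero => simp
  | succ R ih =>
    rw [prod_range_succ, Nat.descFactorial_succ, ← ih]
    by_cases h : R ≤ t
    · push_cast [h]; ring
    · rw [Nat.descFactorial_of_lt (by omega)]; simp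

theorem TT_eq {a : Fin k → ℚ} (ha : ∀ l, 0 < a l ∧ a l < 1) {r m : ℕ} (hr : r < k) (hm : 1 ≤ m)
    (t : ℕ) : TT a r m t = (∑ i ∈ Icc 1 m,
      gg k (RR a r m i (i - 1) * Polynomial.aeval (yy i) (AP a)) i t) * cc a t := by
  set P : Polynomial ℚ := Polynomial.C ((∏ l, ∏ n ∈ range m, (1 - a l + n)) * ((m ! : ℚ)⁻¹) ^ r)
    * ∏ n ∈ range (r * m), (Polynomial.X - Polynomial.C (n : ℚ)) with hP
  have hdeg : P.natDegree < k * (Icc 1 m).card := by
    rw [Nat.card_Icc, Nat.add_sub_cancel]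
    refine lt_of_le_of_lt (Polynomial.natDegree_C_mul_le _ _) ?_
    rw [Polynomial.natDegree_prod_of_monic _ _ fun i _ => Polynomial.monic_X_sub_C _]
    simp only [Polynomial.natDegree_X_sub_C, sum_const, card_range, smul_eq_mul, mul_one]
    nlinarith
  have h := pf (by omega : 1 ≤ k) (Icc 1 m) P hdeg
    (fun i => RR a r m i (i - 1) * Polynomial.aeval (yy i) (AP a)) ?_ t ?_
  · unfold gg
    rw [← h, hP]
    simp only [Polynomial.eval_mul, Polynomial.eval_C, Polynomial.eval_prod, Polynomial.eval_sub,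
      Polynomial.eval_X]
    rw [← descFactorial_cast, TT, cc, prod_pow]
    have e1 : ((t + m)! : ℚ) = t ! * ∏ i ∈ Icc 1 m, ((t : ℚ) + i) := by
      rw [← Nat.factorial_mul_ascFactorial, Nat.ascFactorial_eq_prod_range,
        ← Finset.Ico_add_one_right_eq_Icc, prod_Ico_eq_prod_range]
      push_cast
      congr 1
      exact prod_congr rfl fun n _ => by ring
    have e2 : (∏ i ∈ Icc 1 m, ((t : ℚ) + i)) ≠ 0 := prod_ne_zero_iff.mpr fun i hi => by
      have : 1 ≤ i := (mem_Icc.mp hi).1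
      positivity
    have e3 : ∏ l, BB (a l) m t = (∏ l, ∏ n ∈ range m, (1 - a l + n))
        * (∏ l, (∏ n ∈ range t, (a l + n)) / t !) / (∏ i ∈ Icc 1 m, ((t : ℚ) + i)) ^ k := by
      have : (∏ i ∈ Icc 1 m, ((t : ℚ) + i)) ^ k = ∏ _l : Fin k, ∏ i ∈ Icc 1 m, ((t : ℚ) + i) := by
        simp
      rw [this, ← prod_mul_distrib, ← prod_div_distrib]
      refine prod_congr rfl fun l _ => ?_
      rw [BB, e1]; field_simp
    rw [e3, inv_pow]
    field_simp
  · intro i hi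
    obtain ⟨h1, h2⟩ := mem_Icc.mp hi
    obtain ⟨j, rfl⟩ : ∃ j, i = j + 1 := ⟨i - 1, by omega⟩
    have e1 : Polynomial.aeval (C (-((j + 1 : ℕ) : ℚ)) + X : ℚ⟦X⟧) P
        = Bn r m (j + 1) * ∏ l, C (∏ n ∈ range m, (1 - a l + n)) := by
      rw [hP, map_mul, Polynomial.aeval_C, map_prod, prod_range_mul', Bn]
      simp only [binS]
      rw [prod_mul_distrib, prod_const, card_range, ← map_prod, ← map_pow,
        show ∀ q : ℚ, algebraMap ℚ ℚ⟦X⟧ q = C q from fun _ => rfl, map_mul]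
      have : ∀ b n : ℕ, Polynomial.aeval (C (-((j + 1 : ℕ) : ℚ)) + X : ℚ⟦X⟧)
          (Polynomial.X - Polynomial.C ((b * m + n : ℕ) : ℚ))
          = C (-((j + 1 + b * m : ℕ) : ℚ) - n) + X := by
        intro b n
        rw [map_sub, Polynomial.aeval_X, Polynomial.aeval_C,
          show ∀ q : ℚ, algebraMap ℚ ℚ⟦X⟧ q = C q from fun _ => rfl]
        have : -((j + 1 + b * m : ℕ) : ℚ) - n = -((j + 1 : ℕ) : ℚ) - ((b * m + n : ℕ) : ℚ) := by
          push_cast; ring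
        rw [this, map_sub]; ring
      simp only [this]
      ring
    rw [e1, Nat.add_sub_cancel, aeval_AP, RR, prod_pow]
    have : ∀ f : ℚ⟦X⟧, f ^ k = ∏ _l : Fin k, f := by simp
    rw [this, mul_assoc, mul_assoc, ← prod_mul_distrib, ← prod_mul_distrib]
    congr 1
    refine prod_congr rfl fun l _ => ?_
    rw [← mul_assoc]
    exact FF_top (ha l).2 h2
  · intro i hi
    have : 1 ≤ i := (mem_Icc.mp hi).1
    positivity

theorem LL_eq {a : Fin k → ℚ} (ha : ∀ l, 0 < a l ∧ a l < 1) {z : ℝ} (hz0 : z ≠ 0) (hz : |z| < 1)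
    {r m : ℕ} (hr : r < k) (hm : 1 ≤ m) :
    LL a z r m = ∑ i ∈ Icc 1 m, Lam a z (RR a r m i (i - 1) * Polynomial.aeval (yy i) (AP a)) i := by
  unfold LL Lam
  rw [← Summable.tsum_finsetSum fun i _ => summ_g ha hz0 hz (by omega) _ _]
  refine tsum_congr fun t => ?_
  rw [TT_eq ha hr hm, ← sum_mul, ww]
  push_cast; ring

theorem forms {N : ℕ} (hN : 0 < N) {a : Fin k → ℚ} (ha : ∀ l, 0 < a l ∧ a l < 1)
    (haN : ∀ l, ∃ A : ℤ, (A : ℚ) = N * a l) {z : ℝ} (hz0 : z ≠ 0) (hz : |z| < 1) {r : ℕ} (hr : r < k) :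
    ∃ c0 : ℝ, 0 < c0 ∧ ∀ m D : ℕ, 1 ≤ m → (∀ n, 1 ≤ n → n ≤ N * m → n ∣ D) →
      ∀ {J : Type} [Fintype J] (ξ : J → ℝ) (W Δ : ℝ), 0 ≤ W →
      (∀ e ≤ m, Rep ξ W (Δ * z⁻¹ ^ e) ∧ ∀ p < k, Rep ξ W (Δ * z⁻¹ ^ e * XX a z p)) →
      Rep ξ (c0 * ((N : ℝ) ^ (2 * m * k) * D ^ (k - 1) * (4 * 2 ^ (r * (r + 1)) * 8 ^ k) ^ m * W))
        ((N : ℝ) ^ (2 * m * k) * N ^ k * D ^ (k - 1) * Δ * LL a z r m) := by
  set CA : ℚ := 1 + ∑ n ∈ range (k + 1), |(Polynomial.X ^ k : Polynomial ℚ).coeff n|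
    + ∑ n ∈ range (k + 1), |(AP a).coeff n| with hCA
  have s1 : 0 ≤ ∑ n ∈ range (k + 1), |(Polynomial.X ^ k : Polynomial ℚ).coeff n| :=
    sum_nonneg fun _ _ => abs_nonneg _
  have s2 : 0 ≤ ∑ n ∈ range (k + 1), |(AP a).coeff n| := sum_nonneg fun _ _ => abs_nonneg _
  have hCA0 : 0 < CA := by linarith
  have hN' : (1 : ℚ) ≤ N := by exact_mod_cast hN
  have hρ : (0 : ℚ) ≤ 1 / (2 * N) := by positivity
  have hρ1 : (1 / (2 * N) : ℚ) ≤ 1 := by rw [div_le_one (by positivity)]; linarith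
  refine ⟨(2 * k + 1) * (N : ℝ) ^ k * (2 * N) ^ k * CA, by positivity, ?_⟩
  intro m D hm hD J _ ξ W Δ hW hel
  set M : ℝ := (((N : ℚ) ^ (2 * m * k) * N ^ k * D ^ (k - 1) * ((2 * N) ^ k *
    ((2 ^ (r * (r + 1) * m) * 4 ^ (m * k)) * (CA * 2 ^ (m * k)))) : ℚ) : ℝ) with hM
  have hM0 : 0 ≤ M := by positivity
  have h2 : (1 : ℚ) ≤ 2 ^ (m * k) := one_le_pow₀ (by norm_num)
  have main : ∀ i ∈ Icc 1 m, Rep ξ (m * ((2 * k + 1) * (M * W)))
      ((((N : ℚ) ^ (2 * m * k) * N ^ k * D ^ (k - 1) : ℚ) : ℝ) * Δ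
        * Lam a z (RR a r m i (i - 1) * Polynomial.aeval (yy i) (AP a)) i) := by
    intro i hi
    obtain ⟨h1, hi2⟩ := mem_Icc.mp hi
    obtain ⟨j, rfl⟩ : ∃ j, i = j + 1 := ⟨i - 1, by omega⟩
    have := unfold_rec ha hz0 hz (by omega) ξ (W := W) (Δ := Δ) (M := M) (by positivity)
      (c := (N : ℚ) ^ (2 * m * k) * N ^ k * D ^ (k - 1)) (m := m) (i := j + 1) (RR a r m (j + 1))
      (fun j' hj' => RR_chain ha r m hj') hel ?_ ?_ ?_ j (by omega) 0 (by omega)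
    · rw [pow_zero, mul_one] at this
      refine this.mono (mul_le_mul_of_nonneg_right ?_ (by positivity))
      exact_mod_cast hi2
    · intro j' hj' p
      refine good_coeff hN (by positivity) (by positivity) (RR_mem hN ha haN r hj'.le hi2 hD)
        (quo_mem (fun n => ?_) _ _) (RR_nrm hN ha haN r hj'.le hi2)
        ((quo_nrm hρ hρ1 _ (by omega : j' ≤ m) p).trans ?_) (by omega)
      · rw [Polynomial.coeff_X_pow]
        split_ifs
        · exact ⟨N ^ k, by simp⟩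
        · exact ⟨0, by simp⟩
      · exact mul_le_mul_of_nonneg_right (by linarith) (by positivity)
    · intro j' hj' p
      refine good_coeff hN (by positivity) (by positivity) (RR_mem hN ha haN r hj'.le hi2 hD)
        (quo_mem (AP_coeff haN) _ _) (RR_nrm hN ha haN r hj'.le hi2)
        ((quo_nrm hρ hρ1 _ (by omega : j' + 1 ≤ m) p).trans ?_) (by omega)
      exact mul_le_mul_of_nonneg_right (by linarith) (by positivity)
    · have := good_coeff (k := k) (D := D) hN (c2 := (N : ℚ) ^ k) (T := 1) (b2 := CA * 2 ^ (m * k))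
        (by positivity) (by positivity) (RR_mem hN ha haN r (Nat.zero_le _) hi2 hD)
        (by rw [mul_one]; exact C_mem_of ⟨N ^ k, by simp⟩) (RR_nrm hN ha haN r (Nat.zero_le _) hi2)
        (nrm_one.trans (by nlinarith)) (n := 0) (by omega)
      rwa [mul_one] at this
  have h3 := Rep.sum (Icc 1 m) _ main
  rw [← mul_sum, ← LL_eq ha hz0 hz hr hm, Nat.card_Icc, Nat.add_sub_cancel] at h3
  refine (h3.mono ?_).congr (by push_cast; ring)
  have h4 : (m : ℝ) * m ≤ 4 ^ m := by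
    have : (m : ℝ) ≤ 2 ^ m := by exact_mod_cast Nat.lt_two_pow_self.le
    calc (m : ℝ) * m ≤ 2 ^ m * 2 ^ m := mul_le_mul this this (by positivity) (by positivity)
      _ = 4 ^ m := by rw [← mul_pow]; norm_num
  have h5 : (2 * k + 1) * (N : ℝ) ^ k * (2 * N) ^ k * CA
      * ((N : ℝ) ^ (2 * m * k) * D ^ (k - 1) * (4 * 2 ^ (r * (r + 1)) * 8 ^ k) ^ m * W)
      = 4 ^ m * ((2 * k + 1) * (M * W)) := by
    have e : (4 * 2 ^ (r * (r + 1)) * 8 ^ k : ℝ) ^ m
        = 4 ^ m * 2 ^ (r * (r + 1) * m) * (4 ^ (m * k) * 2 ^ (m * k)) := by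
      rw [mul_pow, mul_pow, ← pow_mul, ← pow_mul, show (8 : ℝ) = 4 * 2 by norm_num, mul_pow,
        mul_comm k m]
    rw [e, hM]; push_cast
    generalize (4 : ℝ) ^ m = x1
    generalize (2 : ℝ) ^ (r * (r + 1) * m) = x2
    generalize (4 : ℝ) ^ (m * k) = x3
    generalize (2 : ℝ) ^ (m * k) = x4
    ring
  rw [h5, ← mul_assoc]
  exact mul_le_mul_of_nonneg_right h4 (by positivity)

end Pool.Agent.Lib.MP_caab05_ag.BR
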