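import Pool.Agent.Lib.MP_caab05_ag.BR.Bounds
import Pool.Agent.Lib.MP_caab05_ag.BR.Crit

/-! The dimension bound. -/

namespace Pool.Agent.Lib.MP_caab05_ag.BR

open Finset Nat

theorem crit' {J : Type} [Fintype J] (ξ : J → ℝ) (V : ℕ → ℝ) {c1 c2 c3 q1 q2 q3 : ℝ}
    (hc1 : 0 < c1) (hc2 : 0 < c2) (hc3 : 0 < c3) (hq1 : 0 < q1) (hq2 : 0 < q2) (hq3 : 0 < q3)
    (hα : 0 < -Real.log q2) (hγ : 0 ≤ Real.log q3 - Real.log q1 + Real.log q2)
    (hlow : ∀ m, 1 ≤ m → c1 * q1 ^ m ≤ |V m|) (hup : ∀ m, 1 ≤ m → |V m| ≤ c2 * q2 ^ m)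
    (hco : ∀ m, 1 ≤ m → Rep ξ (c3 * q3 ^ m) (V m)) :
    -Real.log q2 ≤ Module.finrank ℚ (Submodule.span ℚ (Set.range ξ))
      * (Real.log q3 - Real.log q1 + Real.log q2) := by
  choose ℓ h1 h2 using fun n : ℕ => hco (n + 1) (by omega)
  have e : ∀ q : ℝ, 0 < q → ∀ n : ℕ, Real.exp (Real.log q * n) = q ^ n := by
    intro q hq n
    rw [mul_comm, Real.exp_nat_mul, Real.exp_log hq]
  have := crit ξ ℓ (c1 := c1 * q1) (c2 := c2 * q2) (c3 := c3 * q3) (α1 := -Real.log q1)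
    (α2 := -Real.log q2) (β := Real.log q3) (by positivity) (by positivity) (by positivity) hα
    (by linarith) (fun n => ?_) (fun n => ?_) (fun n i => ?_)
  · convert this using 2; ring
  · rw [neg_neg, e q1 hq1, ← h2 n]
    refine le_trans (le_of_eq ?_) (hlow (n + 1) (by omega)); ring
  · rw [neg_neg, e q2 hq2, ← h2 n]
    refine (hup (n + 1) (by omega)).trans (le_of_eq ?_); ring
  · rw [e q3 hq3]
    refine (h1 n i).trans (le_of_eq ?_); ring

theorem common_den {ι : Type} [Fintype ι] (v : ι → ℚ) :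
    ∃ δ : ℕ, 0 < δ ∧ ∀ i, ∃ u : ℤ, (u : ℚ) = δ * v i := by
  classical
  refine ⟨∏ i, (v i).den, prod_pos fun i _ => (v i).den_pos, fun i => ?_⟩
  refine ⟨(∏ j ∈ univ.erase i, ((v j).den : ℤ)) * (v i).num, ?_⟩
  rw [← mul_prod_erase univ _ (mem_univ i)]
  push_cast
  rw [← Rat.mul_den_eq_num]; ring

theorem basis_data (K : IntermediateField ℚ ℝ) {d : ℕ} (b : Module.Basis (Fin d) ℚ K) (y : K) :
    ∃ (δ : ℕ) (Y : ℝ), 0 < δ ∧ 1 ≤ Y ∧ ∀ e : ℕ, ∃ q : Fin d → ℤ, (∀ i, |(q i : ℝ)| ≤ Y ^ (e + 1)) ∧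
      (δ : ℝ) ^ (e + 1) * (y : ℝ) ^ e = ∑ i, (q i : ℝ) * (b i : ℝ) := by
  obtain ⟨δ, hδ, h⟩ := common_den (ι := Option (Fin d) × Fin d)
    fun p => b.repr (p.1.elim 1 fun i => y * b i) p.2
  choose u hu using h
  have hrep : ∀ o : Option (Fin d), (δ : ℝ) * ((o.elim 1 fun i => y * b i : K) : ℝ)
      = ∑ j, (u (o, j) : ℝ) * (b j : ℝ) := by
    intro o
    have := congrArg (fun v : K => (v : ℝ)) (b.sum_repr (o.elim 1 fun i => y * b i))
    simp only [IntermediateField.coe_sum, IntermediateField.coe_smul] at this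
    simp only [Rat.smul_def] at this
    rw [← this, mul_sum]
    refine sum_congr rfl fun j _ => ?_
    have h2 := congrArg (fun q : ℚ => (q : ℝ)) (hu (o, j))
    push_cast at h2
    rw [h2]; ring
  set Y : ℝ := 1 + ∑ p, |(u p : ℝ)| with hY
  have hs : 0 ≤ ∑ p, |(u p : ℝ)| := sum_nonneg fun _ _ => abs_nonneg _
  refine ⟨δ, Y, hδ, by linarith, fun e => ?_⟩
  induction e with
  | zero =>
    refine ⟨fun j => u (none, j), fun j => ?_, ?_⟩
    · have := single_le_sum (f := fun p => |(u p : ℝ)|) (fun _ _ => abs_nonneg _) (mem_univ (none, j))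
      simp only [zero_add, pow_one]; linarith
    · simpa using hrep none
  | succ e ih =>
    obtain ⟨q, hq, hq2⟩ := ih
    refine ⟨fun j => ∑ i, q i * u (some i, j), fun j => ?_, ?_⟩
    · push_cast
      refine (abs_sum_le_sum_abs _ _).trans ?_
      have h1 : ∑ i, |(u (some i, j) : ℝ)| ≤ Y := by
        have : ∑ i, |(u (some i, j) : ℝ)| ≤ ∑ p, |(u p : ℝ)| := by
          rw [← sum_image (s := univ) (g := fun i : Fin d => ((some i, j) : Option (Fin d) × Fin d))
            (f := fun p => |(u p : ℝ)|) (fun a _ c _ h => by simpa using h)]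
          exact sum_le_sum_of_subset_of_nonneg (subset_univ _) fun _ _ _ => abs_nonneg _
        linarith
      calc ∑ i, |(q i : ℝ) * u (some i, j)| ≤ ∑ i, Y ^ (e + 1) * |(u (some i, j) : ℝ)| :=
            sum_le_sum fun i _ => by
              rw [abs_mul]; exact mul_le_mul_of_nonneg_right (hq i) (abs_nonneg _)
        _ ≤ Y ^ (e + 1) * Y := by
            rw [← mul_sum]; exact mul_le_mul_of_nonneg_left h1 (by positivity)
        _ = _ := by ring
    · have : (δ : ℝ) ^ (e + 1 + 1) * (y : ℝ) ^ (e + 1) = δ * y * ((δ : ℝ) ^ (e + 1) * (y : ℝ) ^ e) := by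
        ring
      rw [this, hq2, mul_sum]
      push_cast
      simp only [sum_mul]
      rw [sum_comm]
      refine sum_congr rfl fun i _ => ?_
      have h3 := hrep (some i)
      simp only [Option.elim_some, MulMemClass.coe_mul] at h3
      calc (δ : ℝ) * y * (q i * (b i : ℝ)) = q i * (δ * (y * (b i : ℝ))) := by ring
        _ = _ := by rw [h3, mul_sum]; exact sum_congr rfl fun j _ => by ring

theorem rep_elem {d : ℕ} {O : Type} [Fintype O] (b : Fin d → ℝ) (x : O → ℝ) {δ : ℕ} {Y y : ℝ}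
    (hδ : 0 < δ) (hY : 1 ≤ Y) {e m : ℕ} (he : e ≤ m)
    (h : ∃ q : Fin d → ℤ, (∀ i, |(q i : ℝ)| ≤ Y ^ (e + 1)) ∧
      (δ : ℝ) ^ (e + 1) * y ^ e = ∑ i, (q i : ℝ) * b i) (o : O) :
    Rep (fun p : Fin d × O => b p.1 * x p.2) ((δ * Y) ^ (m + 1)) ((δ : ℝ) ^ (m + 1) * y ^ e * x o) := by
  classical
  obtain ⟨q, hq, hq2⟩ := h
  have hδ' : (1 : ℝ) ≤ δ := by exact_mod_cast hδ
  refine ⟨fun p => if p.2 = o then δ ^ (m - e) * q p.1 else 0, fun p => ?_, ?_⟩
  · simp only
    split_ifs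
    · push_cast
      rw [abs_mul, abs_of_nonneg (by positivity), mul_pow]
      exact mul_le_mul (pow_le_pow_right₀ hδ' (by omega))
        ((hq _).trans (pow_le_pow_right₀ hY (by omega))) (abs_nonneg _) (by positivity)
    · simp only [Int.cast_zero, abs_zero]; positivity
  · rw [Fintype.sum_prod_type, show m + 1 = (m - e) + (e + 1) by omega, pow_add, mul_assoc _ _ (y ^ e),
      hq2, mul_sum, sum_mul]
    refine sum_congr rfl fun i _ => ?_
    rw [sum_eq_single o]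
    · simp only [if_true]; push_cast; ring
    · intro o' _ h; simp [h]
    · simp

theorem rank_le (K : IntermediateField ℚ ℝ) [FiniteDimensional ℚ K] {d k : ℕ} (b : Fin d → K)
    (x : Fin k → ℝ) :
    Module.finrank ℚ (Submodule.span ℚ (Set.range fun p : Fin d × Option (Fin k) =>
      (b p.1 : ℝ) * p.2.elim 1 x))
      ≤ Module.finrank ℚ K * (Module.finrank K (Submodule.span K (Set.range x)) + 1) := by
  set V := Submodule.span K (Set.range x) with hV
  set V' := V ⊔ Submodule.span K {(1 : ℝ)} with hV'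
  have f1 : FiniteDimensional K V := FiniteDimensional.span_of_finite K (Set.finite_range x)
  have h1 : Module.finrank K V' ≤ Module.finrank K V + 1 := by
    refine (Submodule.finrank_add_le_finrank_add_finrank _ _).trans ?_
    rw [finrank_span_singleton one_ne_zero]
  have f2 : FiniteDimensional ℚ V' := Module.Finite.trans K V'
  have f3 : FiniteDimensional ℚ (V'.restrictScalars ℚ) := f2
  have h2 : Module.finrank ℚ (V'.restrictScalars ℚ) = Module.finrank ℚ K * Module.finrank K V' :=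
    (Module.finrank_mul_finrank ℚ K V').symm
  refine le_trans (Submodule.finrank_mono (t := V'.restrictScalars ℚ) ?_)
    (h2.le.trans (Nat.mul_le_mul_left _ h1))
  rw [Submodule.span_le]
  rintro _ ⟨⟨i, o⟩, rfl⟩
  have : (o.elim 1 x : ℝ) ∈ V' := by
    cases o with
    | none => exact Submodule.mem_sup_right (Submodule.subset_span rfl)
    | some j => exact Submodule.mem_sup_left (Submodule.subset_span ⟨j, rfl⟩)
  exact V'.smul_mem (b i) this

theorem lcm_le (n : ℕ) : (Nat.lcmUpto n : ℝ) ≤ Real.exp (6 * n) := by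
  have h1 := Chebyshev.psi_le_const_mul_self (x := (n : ℝ)) (by positivity)
  rw [Chebyshev.psi_eq_log_lcmUpto] at h1
  rw [← Real.exp_log (x := (Nat.lcmUpto n : ℝ)) (by exact_mod_cast Nat.lcmUpto_pos n)]
  refine Real.exp_le_exp.mpr (h1.trans (mul_le_mul_of_nonneg_right ?_ (by positivity)))
  have : Real.log 4 = 2 * Real.log 2 := by
    rw [show (4 : ℝ) = 2 ^ 2 by norm_num, Real.log_pow]; norm_num
  have := Real.log_two_lt_d9
  linarith

theorem main_ineq {k N : ℕ} (hN : 0 < N) {a : Fin k → ℚ} (ha : ∀ l, 0 < a l ∧ a l < 1)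
    (haN : ∀ l, ∃ A : ℤ, (A : ℚ) = N * a l) {z : ℝ} (hz0 : z ≠ 0) (hz : |z| < 1)
    {J : Type} [Fintype J] (ξ : J → ℝ) {δ : ℕ} {Y : ℝ} (hδ : 0 < δ) (hY : 1 ≤ Y)
    (hel : ∀ m e : ℕ, e ≤ m → Rep ξ ((δ * Y) ^ (m + 1)) ((δ : ℝ) ^ (m + 1) * z⁻¹ ^ e) ∧
      ∀ p < k, Rep ξ ((δ * Y) ^ (m + 1)) ((δ : ℝ) ^ (m + 1) * z⁻¹ ^ e * XX a z p))
    (hk : 2 ≤ k) (hk2 : 20 * (N : ℝ) < Real.log k)
    (hk3 : 2 + Real.log (δ * Y) + Real.log δ - Real.log (1 - |z|) - Real.log (|z| / 2) ≤ k.sqrt) :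
    Real.log k ≤ 48 * N * Module.finrank ℚ (Submodule.span ℚ (Set.range ξ)) + 20 * N := by
  set r := k.sqrt with hr
  have hr1 : 1 ≤ r := Nat.le_sqrt.mpr (by omega)
  have hrk : r < k := Nat.sqrt_lt_self (by omega)
  have hrr : r * r ≤ k := Nat.sqrt_le k
  have hrr' : k < (r + 1) * (r + 1) := Nat.lt_succ_sqrt k
  obtain ⟨c0, hc0, hf⟩ := forms hN ha haN hz0 hz hrk
  have hz1 : 0 < 1 - |z| := by linarith
  have hz2 : 0 < |z| := abs_pos.mpr hz0
  have hδ' : (1 : ℝ) ≤ δ := by exact_mod_cast hδ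
  have hN' : (1 : ℝ) ≤ N := by exact_mod_cast hN
  have hk' : (0 : ℝ) < k := by exact_mod_cast (by omega : 0 < k)
  have hr' : (1 : ℝ) ≤ r := by exact_mod_cast hr1
  have hE : ∀ m : ℕ, 1 ≤ (N : ℝ) ^ (2 * m * k) * (Nat.lcmUpto (N * m) : ℝ) ^ (k - 1) ∧
      (N : ℝ) ^ (2 * m * k) * (Nat.lcmUpto (N * m) : ℝ) ^ (k - 1) ≤ Real.exp (8 * N * k) ^ m := by
    intro m
    have h1 : (1 : ℝ) ≤ Nat.lcmUpto (N * m) := by exact_mod_cast Nat.lcmUpto_pos _
    refine ⟨one_le_mul_of_one_le_of_one_le (one_le_pow₀ hN') (one_le_pow₀ h1), ?_⟩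
    have h2 : (N : ℝ) ≤ Real.exp N := by have := Real.add_one_le_exp (N : ℝ); linarith
    calc (N : ℝ) ^ (2 * m * k) * (Nat.lcmUpto (N * m) : ℝ) ^ (k - 1)
        ≤ Real.exp N ^ (2 * m * k) * Real.exp (6 * (N * m : ℕ)) ^ k :=
          mul_le_mul (pow_le_pow_left₀ (by positivity) h2 _)
            ((pow_le_pow_right₀ h1 (by omega)).trans (pow_le_pow_left₀ (by positivity) (lcm_le _) _))
            (by positivity) (by positivity)
      _ = _ := by
          rw [← Real.exp_nat_mul, ← Real.exp_nat_mul, ← Real.exp_nat_mul, ← Real.exp_add]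
          congr 1; push_cast; ring
  have hP : 0 < ∏ l, ((a l : ℝ) * (1 - a l) / r) := prod_pos fun l _ => by
    have h1 : (0 : ℝ) < a l := by exact_mod_cast (ha l).1
    have h2 : (a l : ℝ) < 1 := by exact_mod_cast (ha l).2
    have : (0 : ℝ) < 1 - a l := by linarith
    positivity
  have l2 := Real.log_two_lt_d9
  have l2' := Real.log_two_gt_d9
  have L2 : Real.log (Real.exp (8 * N * k) * δ * 2 ^ (r * r) / (((r : ℝ) + 1) ^ k * (1 - |z|) ^ r))
      = 8 * N * k + Real.log δ + r * r * Real.log 2 - k * Real.log (r + 1) - r * Real.log (1 - |z|) := by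
    rw [Real.log_div (by positivity) (by positivity), Real.log_mul (by positivity) (by positivity),
      Real.log_mul (by positivity) (by positivity), Real.log_mul (by positivity) (by positivity),
      Real.log_exp, Real.log_pow, Real.log_pow, Real.log_pow]
    push_cast; ring
  have L1 : Real.log ((|z| / 2) ^ r / (12 * ((r : ℝ) + 1)) ^ k)
      = r * Real.log (|z| / 2) - k * Real.log 12 - k * Real.log (r + 1) := by
    rw [Real.log_div (by positivity) (by positivity), Real.log_pow, Real.log_pow,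
      Real.log_mul (by positivity) (by positivity)]
    ring
  have L3 : Real.log (Real.exp (8 * N * k) * (4 * 2 ^ (r * (r + 1)) * 8 ^ k) * (δ * Y))
      = 8 * N * k + (2 + r * (r + 1) + 3 * k) * Real.log 2 + Real.log (δ * Y) := by
    rw [Real.log_mul (by positivity) (by positivity), Real.log_mul (by positivity) (by positivity),
      Real.log_exp, show (4 * 2 ^ (r * (r + 1)) * 8 ^ k : ℝ) = 2 ^ (2 + r * (r + 1) + 3 * k) by
        rw [pow_add, pow_add, pow_mul 2 3 k]; norm_num, Real.log_pow]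
    push_cast; ring
  have p1 : 0 ≤ Real.log δ := Real.log_nonneg hδ'
  have p2 : 0 ≤ Real.log (δ * Y) := Real.log_nonneg (one_le_mul_of_one_le_of_one_le hδ' hY)
  have p3 : Real.log (1 - |z|) ≤ 0 := Real.log_nonpos hz1.le (by linarith)
  have p4 : Real.log (|z| / 2) ≤ 0 := Real.log_nonpos (by positivity) (by linarith)
  have p5 : Real.log 12 ≤ 4 * Real.log 2 := by
    rw [show 4 * Real.log 2 = Real.log (2 ^ 4) by rw [Real.log_pow]; norm_num]
    exact Real.log_le_log (by norm_num) (by norm_num)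
  have p5' : 0 ≤ Real.log 12 := Real.log_nonneg (by norm_num)
  have p6 : Real.log k ≤ 2 * Real.log (r + 1) := by
    rw [show 2 * Real.log (r + 1) = Real.log ((r + 1) ^ 2) by rw [Real.log_pow]; norm_num]
    refine Real.log_le_log hk' ?_
    have : (k : ℝ) ≤ (r + 1) * (r + 1) := by exact_mod_cast hrr'.le
    linarith
  have hrr2 : (r : ℝ) * r ≤ k := by exact_mod_cast hrr
  have hr2 : (r : ℝ) ≤ k := by exact_mod_cast hrk.le
  have p7 : 2 + Real.log (δ * Y) + Real.log δ - r * Real.log (1 - |z|) - r * Real.log (|z| / 2) ≤ k := by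
    have := mul_le_mul_of_nonneg_left hk3 (by linarith : (0 : ℝ) ≤ r)
    have := mul_le_mul_of_nonneg_right hr' (by linarith : 0 ≤ 2 + Real.log (δ * Y) + Real.log δ)
    linarith
  have q1 : 0 ≤ -(r * Real.log (1 - |z|)) := by
    have := mul_nonpos_of_nonneg_of_nonpos (by linarith : (0 : ℝ) ≤ r) p3
    linarith
  have q2 : 0 ≤ -(r * Real.log (|z| / 2)) := by
    have := mul_nonpos_of_nonneg_of_nonpos (by linarith : (0 : ℝ) ≤ r) p4
    linarith
  have q3 : (k : ℝ) ≤ N * k := le_mul_of_one_le_left hk'.le hN'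
  have q4 : (r : ℝ) * r * Real.log 2 ≤ k * 0.7 :=
    mul_le_mul hrr2 (by linarith) (by linarith) hk'.le
  have q5 : (r : ℝ) * Real.log 2 ≤ k * 0.7 := mul_le_mul hr2 (by linarith) (by linarith) hk'.le
  have q6 : (k : ℝ) * Real.log 2 ≤ k * 0.7 := mul_le_mul_of_nonneg_left (by linarith) hk'.le
  have q7 : (k : ℝ) * Real.log 12 ≤ k * 2.8 := mul_le_mul_of_nonneg_left (by linarith) hk'.le
  have q8 : (k : ℝ) * Real.log k ≤ k * (2 * Real.log (r + 1)) := mul_le_mul_of_nonneg_left p6 hk'.le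
  have q9 : (k : ℝ) * (20 * N) < k * Real.log k := mul_lt_mul_of_pos_left hk2 hk'
  have q10 : 0 ≤ (r : ℝ) * r * Real.log 2 := by positivity
  have q11 : 0 ≤ (r : ℝ) * Real.log 2 := by positivity
  have q12 : 0 ≤ (k : ℝ) * Real.log 2 := by positivity
  have q13 : 0 ≤ (k : ℝ) * Real.log 12 := by positivity
  have key := crit' ξ (fun m => (N : ℝ) ^ (2 * m * k) * N ^ k * (Nat.lcmUpto (N * m) : ℝ) ^ (k - 1)
      * (δ : ℝ) ^ (m + 1) * LL a z r m)
    (c1 := (∏ l, ((a l : ℝ) * (1 - a l) / r)) / 2) (c2 := (N : ℝ) ^ k * δ / (1 - |z|))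
    (c3 := c0 * (δ * Y)) (q1 := (|z| / 2) ^ r / (12 * ((r : ℝ) + 1)) ^ k)
    (q2 := Real.exp (8 * N * k) * δ * 2 ^ (r * r) / (((r : ℝ) + 1) ^ k * (1 - |z|) ^ r))
    (q3 := Real.exp (8 * N * k) * (4 * 2 ^ (r * (r + 1)) * 8 ^ k) * (δ * Y))
    (by positivity) (by positivity) (by positivity) (by positivity) (by positivity) (by positivity)
    (by rw [L2]; linarith) (by rw [L1, L2, L3]; linarith) ?_ ?_ ?_
  · rw [L1, L2, L3] at key
    generalize Module.finrank ℚ (Submodule.span ℚ (Set.range ξ)) = dm at key ⊢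
    have hdm : (0 : ℝ) ≤ dm := by positivity
    have h1 : (k : ℝ) * Real.log k / 2 - 10 * (N * k) ≤ dm * (24 * (N * k)) :=
      le_trans (by linarith) (key.trans (mul_le_mul_of_nonneg_left (by linarith) hdm))
    refine le_of_mul_le_mul_left ?_ hk'
    linarith
  · intro m hm
    have h1 := LL_lower ha hz hr1 hm
    have h2 : (1 : ℝ) ≤ (N : ℝ) ^ (2 * m * k) * N ^ k * (Nat.lcmUpto (N * m) : ℝ) ^ (k - 1)
        * (δ : ℝ) ^ (m + 1) := by
      refine one_le_mul_of_one_le_of_one_le ?_ (one_le_pow₀ hδ')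
      rw [mul_right_comm]
      exact one_le_mul_of_one_le_of_one_le (hE m).1 (one_le_pow₀ hN')
    rw [abs_mul, abs_of_nonneg (zero_le_one.trans h2)]
    refine le_trans (le_of_eq ?_) (h1.trans (le_mul_of_one_le_left (abs_nonneg _) h2))
    rw [div_pow, div_pow, div_pow, ← pow_mul, ← pow_mul, ← pow_mul, ← pow_mul, mul_comm m k, pow_succ]
    field_simp
  · intro m hm
    have h1 := LL_upper ha hz r m
    rw [abs_mul, abs_of_nonneg (by positivity)]
    calc (N : ℝ) ^ (2 * m * k) * N ^ k * (Nat.lcmUpto (N * m) : ℝ) ^ (k - 1) * (δ : ℝ) ^ (m + 1)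
          * |LL a z r m|
        = ((N : ℝ) ^ (2 * m * k) * (Nat.lcmUpto (N * m) : ℝ) ^ (k - 1))
          * (N ^ k * (δ : ℝ) ^ (m + 1) * |LL a z r m|) := by ring
      _ ≤ Real.exp (8 * N * k) ^ m * (N ^ k * (δ : ℝ) ^ (m + 1) * (2 ^ (r * r * m)
          * ((1 / ((r : ℝ) + 1) ^ m) ^ k * (1 / (1 - |z|) ^ (r * m + 1))))) :=
          mul_le_mul (hE m).2 (mul_le_mul_of_nonneg_left h1 (by positivity)) (by positivity)
            (by positivity)
      _ = _ := by
          simp only [div_pow, mul_pow, one_pow, ← pow_mul, mul_comm m k, pow_succ]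
          field_simp
  · intro m hm
    refine (hf m (Nat.lcmUpto (N * m)) hm (fun n h1 h2 => ?_) ξ ((δ * Y) ^ (m + 1)) ((δ : ℝ) ^ (m + 1))
      (by positivity) (fun e he => hel m e he)).mono ?_
    · exact Finset.dvd_lcm (f := id) (mem_Icc.mpr ⟨h1, h2⟩)
    · rw [mul_assoc c0, mul_pow _ (δ * Y), mul_pow (Real.exp _), pow_succ]
      refine mul_le_mul_of_nonneg_left ?_ hc0.le
      calc _ ≤ Real.exp (8 * N * k) ^ m * (4 * 2 ^ (r * (r + 1)) * 8 ^ k) ^ m
              * ((δ * Y) ^ m * (δ * Y)) :=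
            mul_le_mul_of_nonneg_right (mul_le_mul_of_nonneg_right (hE m).2 (by positivity))
              (by positivity)
        _ = _ := by ring

theorem main {N : ℕ} (hN : 0 < N) (K : IntermediateField ℚ ℝ) [FiniteDimensional ℚ K] {z : ℝ}
    (hzK : z ∈ K) (hz0 : z ≠ 0) (hz : |z| < 1) :
    ∃ k0 : ℕ, ∀ k ≥ k0, ∀ a : Fin k → ℚ, (∀ l, 0 < a l ∧ a l < 1) →
      (∀ l, ∃ A : ℤ, (A : ℚ) = N * a l) →
      Real.log k ≤ 100 * N * Module.finrank ℚ K
        * Module.finrank K (Submodule.span K (Set.range fun j : Fin k => XX a z j)) := by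
  obtain ⟨d, hd⟩ : ∃ d, Module.finrank ℚ K = d := ⟨_, rfl⟩
  have b : Module.Basis (Fin d) ℚ K := Module.finBasisOfFinrankEq ℚ K hd
  obtain ⟨δ, Y, hδ, hY, hq⟩ := basis_data K b (⟨z, hzK⟩⁻¹)
  have hd1 : (1 : ℝ) ≤ d := by rw [← hd]; exact_mod_cast Module.finrank_pos
  have hN' : (1 : ℝ) ≤ N := by exact_mod_cast hN
  obtain ⟨c, hc⟩ : ∃ c : ℕ, 2 + Real.log (δ * Y) + Real.log δ - Real.log (1 - |z|)
    - Real.log (|z| / 2) ≤ c := ⟨_, Nat.le_ceil _⟩
  rw [hd]
  refine ⟨c * c + ⌈Real.exp (136 * N * d)⌉₊ + 2, fun k hk a ha haN => ?_⟩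
  have h1 : 136 * (N : ℝ) * d ≤ Real.log k := by
    rw [Real.le_log_iff_exp_le (by exact_mod_cast (by omega : 0 < k))]
    exact Nat.ceil_le.mp (by omega)
  have h2 : (N : ℝ) ≤ N * d := le_mul_of_one_le_right (by linarith) hd1
  have h3 := main_ineq hN ha haN hz0 hz
    (fun p : Fin d × Option (Fin k) => (b p.1 : ℝ) * p.2.elim 1 fun j => XX a z j) hδ hY
    (fun m e he => ⟨?_, fun p hp => ?_⟩) (by omega) (by linarith)
    (hc.trans (Nat.cast_le.mpr (Nat.le_sqrt.mpr (by omega))))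
  · have h4 := (Nat.cast_le (α := ℝ)).mpr (rank_le K b fun j : Fin k => XX a z j)
    rw [hd] at h4
    push_cast at h4
    generalize Module.finrank K (Submodule.span K (Set.range fun j : Fin k => XX a z j)) = dK at h4 ⊢
    have h5 := mul_le_mul_of_nonneg_left h4 (by linarith : (0 : ℝ) ≤ 48 * N)
    have h6 : 0 ≤ (N : ℝ) * d * dK := by positivity
    linarith
  · simpa using rep_elem (fun i => (b i : ℝ)) (fun o : Option (Fin k) => o.elim 1 fun j => XX a z j)
      hδ hY he (hq e) none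
  · simpa using rep_elem (fun i => (b i : ℝ)) (fun o : Option (Fin k) => o.elim 1 fun j => XX a z j)
      hδ hY he (hq e) (some ⟨p, hp⟩)

end Pool.Agent.Lib.MP_caab05_ag.BR
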