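import Pool.Agent.Lib.MP_caab05_ag.BR.Series

/-! Partial fractions with poles of order `k`, and division of `A(t) - A(y)` by `t - y`. -/

namespace Pool.Agent.Lib.MP_caab05_ag.BR

open Finset PowerSeries

theorem coe_comp (p : Polynomial ℚ) (c : ℚ) :
    ((p.comp (Polynomial.X - Polynomial.C c) : Polynomial ℚ) : ℚ⟦X⟧)
      = Polynomial.aeval (C (-c) + X : ℚ⟦X⟧) p := by
  induction p using Polynomial.induction_on' with
  | add p q hp hq => rw [Polynomial.add_comp, Polynomial.coe_add, hp, hq, map_add]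
  | monomial n a =>
    rw [Polynomial.monomial_comp, Polynomial.aeval_monomial, Polynomial.coe_mul, Polynomial.coe_pow,
      Polynomial.coe_sub, Polynomial.coe_C, Polynomial.coe_C, Polynomial.coe_X, map_neg]
    congr 2; ring

theorem dvd_of_aeval (p : Polynomial ℚ) (c : ℚ) (k : ℕ)
    (h : (X : ℚ⟦X⟧) ^ k ∣ Polynomial.aeval (C (-c) + X : ℚ⟦X⟧) p) :
    (Polynomial.X + Polynomial.C c) ^ k ∣ p := by
  rw [← coe_comp, PowerSeries.X_pow_dvd_iff] at h
  have h2 : Polynomial.X ^ k ∣ p.comp (Polynomial.X - Polynomial.C c) := by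
    rw [Polynomial.X_pow_dvd_iff]
    intro d hd
    simpa [Polynomial.coeff_coe] using h d hd
  obtain ⟨q, hq⟩ := h2
  refine ⟨q.comp (Polynomial.X + Polynomial.C c), ?_⟩
  have := congrArg (fun r => r.comp (Polynomial.X + Polynomial.C c)) hq
  simpa [Polynomial.comp_assoc] using this

theorem coeff_mul_geo (H : ℚ⟦X⟧) {k : ℕ} (hk : 1 ≤ k) {u : ℚ} (hu : u ≠ 0) :
    coeff (k - 1) (H * geo u) = (trunc k H).eval u / u ^ k := by
  obtain ⟨k, rfl⟩ : ∃ j, k = j + 1 := ⟨k - 1, by omega⟩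
  rw [Nat.add_sub_cancel, coeff_mul, Finset.Nat.sum_antidiagonal_eq_sum_range_succ_mk,
    Polynomial.eval_eq_sum_range' (n := k + 1) (natDegree_trunc_lt H k), sum_div]
  refine sum_congr rfl fun n hn => ?_
  have hn' := mem_range.mp hn
  rw [coeff_trunc, if_pos hn']
  simp only [geo, coeff_mk]
  obtain ⟨j, rfl⟩ : ∃ j, k = n + j := ⟨k - n, by omega⟩
  rw [Nat.add_sub_cancel_left]
  field_simp
  ring

theorem pf {k : ℕ} (hk : 1 ≤ k) (s : Finset ℕ) (P : Polynomial ℚ) (hP : P.natDegree < k * s.card)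
    (H : ℕ → ℚ⟦X⟧)
    (hH : ∀ i ∈ s, H i * ∏ j ∈ s.erase i, (C ((j : ℚ) - i) + X) ^ k
      = Polynomial.aeval (C (-(i : ℚ)) + X : ℚ⟦X⟧) P)
    (t : ℚ) (ht : ∀ i ∈ s, t + i ≠ 0) :
    P.eval t / ∏ i ∈ s, (t + i) ^ k = ∑ i ∈ s, coeff (k - 1) (H i * geo (t + i)) := by
  classical
  set T : ℕ → Polynomial ℚ := fun i => (trunc k (H i)).comp (Polynomial.X + Polynomial.C (i : ℚ)) with hT
  set D : ℕ → Polynomial ℚ := fun i => ∏ j ∈ s.erase i, (Polynomial.X + Polynomial.C (j : ℚ)) ^ k with hD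
  set E : Polynomial ℚ := P - ∑ i ∈ s, T i * D i with hE
  have hdvd : ∀ i ∈ s, (Polynomial.X + Polynomial.C (i : ℚ)) ^ k ∣ E := by
    intro i hi
    apply dvd_of_aeval
    have hφ : ∀ j : ℕ, Polynomial.aeval (C (-(i : ℚ)) + X : ℚ⟦X⟧) (Polynomial.X + Polynomial.C (j : ℚ))
        = C ((j : ℚ) - i) + X := by
      intro j
      simp only [map_add, Polynomial.aeval_X, Polynomial.aeval_C, map_neg, map_sub]
      rw [show algebraMap ℚ ℚ⟦X⟧ (j : ℚ) = C (j : ℚ) from rfl]; ring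
    have hTi : Polynomial.aeval (C (-(i : ℚ)) + X : ℚ⟦X⟧) (T i) = (trunc k (H i) : ℚ⟦X⟧) := by
      rw [hT]; simp only
      rw [← coe_comp, Polynomial.comp_assoc]; simp
    have hDi : Polynomial.aeval (C (-(i : ℚ)) + X : ℚ⟦X⟧) (D i)
        = ∏ j ∈ s.erase i, (C ((j : ℚ) - i) + X) ^ k := by
      rw [hD]; simp only [map_prod, map_pow, hφ]
    rw [hE, map_sub, map_sum, ← add_sum_erase s _ hi, map_mul, hTi, hDi, ← hH i hi, ← sub_sub,
      ← sub_mul]
    refine dvd_sub (Dvd.dvd.mul_right ?_ _) (dvd_sum fun j hj => ?_)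
    · rw [PowerSeries.X_pow_dvd_iff]
      intro m hm
      simp [coeff_trunc, hm]
    · rw [map_mul]
      refine Dvd.dvd.mul_left ?_ _
      rw [hD]; simp only [map_prod, map_pow, hφ]
      have hij : i ∈ s.erase j := mem_erase.mpr ⟨(mem_erase.mp hj).1.symm, hi⟩
      have := dvd_prod_of_mem (fun j' : ℕ => (C ((j' : ℚ) - i) + X : ℚ⟦X⟧) ^ k) hij
      simpa using this
  have hprod : ∏ i ∈ s, (Polynomial.X + Polynomial.C (i : ℚ)) ^ k ∣ E := by
    refine Finset.prod_dvd_of_coprime ?_ hdvd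
    intro i _ j _ hij
    refine IsCoprime.pow ?_
    have : IsUnit ((-(i : ℚ)) - (-(j : ℚ))) := by
      rw [isUnit_iff_ne_zero]
      intro h
      apply hij
      have : (i : ℚ) = j := by linarith
      exact_mod_cast this
    simpa using Polynomial.isCoprime_X_sub_C_of_isUnit_sub this
  have hdeg : ∀ u : Finset ℕ, (∏ i ∈ u, (Polynomial.X + Polynomial.C (i : ℚ)) ^ k).natDegree
      = k * u.card := by
    intro u
    rw [Polynomial.natDegree_prod_of_monic _ _ fun i _ => (Polynomial.monic_X_add_C _).pow k]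
    simp only [Polynomial.natDegree_pow, Polynomial.natDegree_X_add_C]
    simp [mul_comm]
  have hE0 : E = 0 := by
    refine Polynomial.eq_zero_of_dvd_of_natDegree_lt hprod ?_
    rw [hdeg, hE]
    refine lt_of_le_of_lt (Polynomial.natDegree_sub_le _ _) (max_lt hP ?_)
    have hpos : 0 < k * s.card := by omega
    refine lt_of_le_of_lt (Polynomial.natDegree_sum_le_of_forall_le s _ (n := k * s.card - 1) ?_) (by omega)
    intro i hi
    refine Polynomial.natDegree_mul_le.trans ?_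
    have h1 : (T i).natDegree ≤ k - 1 := by
      rw [hT]; simp only
      refine Polynomial.natDegree_comp_le.trans ?_
      rw [Polynomial.natDegree_X_add_C, mul_one]
      obtain ⟨k', rfl⟩ : ∃ j, k = j + 1 := ⟨k - 1, by omega⟩
      have := natDegree_trunc_lt (H i) k'
      omega
    have h2 : (D i).natDegree = k * (s.card - 1) := by
      rw [hD]; simp only; rw [hdeg, card_erase_of_mem hi]
    have h3 : 0 < s.card := card_pos.mpr ⟨i, hi⟩
    obtain ⟨c, hc⟩ : ∃ c, s.card = c + 1 := ⟨s.card - 1, by omega⟩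
    rw [h2, hc, Nat.add_sub_cancel, mul_add]; omega
  have hP2 : P.eval t = ∑ i ∈ s, (trunc k (H i)).eval (t + i) * ∏ j ∈ s.erase i, (t + j) ^ k := by
    have : P = ∑ i ∈ s, T i * D i := sub_eq_zero.mp hE0
    rw [this, Polynomial.eval_finsetSum]
    refine sum_congr rfl fun i _ => ?_
    simp [hT, hD, Polynomial.eval_prod, Polynomial.eval_comp]
  rw [hP2, sum_div]
  refine sum_congr rfl fun i hi => ?_
  rw [coeff_mul_geo _ hk (ht i hi), ← mul_prod_erase s _ hi]
  have h1 : ∏ j ∈ s.erase i, (t + j) ^ k ≠ 0 :=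
    prod_ne_zero_iff.mpr fun j hj => pow_ne_zero _ (ht j (mem_of_mem_erase hj))
  have h2 := pow_ne_zero k (ht i hi)
  field_simp

/-- The coefficient of `t ^ p` in `(A(t) - A(y)) / (t - y)`. -/
noncomputable def quo (k : ℕ) (A : Polynomial ℚ) (y : ℚ⟦X⟧) (p : ℕ) : ℚ⟦X⟧ :=
  ∑ n ∈ range (k + 1), if p < n then C (A.coeff n) * y ^ (n - 1 - p) else 0

theorem quo_spec (k : ℕ) (A : Polynomial ℚ) (hA : A.natDegree ≤ k) (y : ℚ⟦X⟧) (t : ℚ) :
    C (A.eval t) = Polynomial.aeval y A + (C t - y) * ∑ p ∈ range k, C (t ^ p) * quo k A y p := by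
  rw [Polynomial.eval_eq_sum_range' (n := k + 1) (by omega),
    Polynomial.aeval_eq_sum_range' (n := k + 1) (by omega)]
  simp only [quo, mul_sum]
  rw [sum_comm, map_sum, ← sum_add_distrib]
  refine sum_congr rfl fun n hn => ?_
  have hn' := mem_range.mp hn
  have e : ∑ p ∈ range k, (C t - y) * (C (t ^ p) * if p < n then C (A.coeff n) * y ^ (n - 1 - p) else 0)
      = C (A.coeff n) * ((C t - y) * ∑ p ∈ range n, C t ^ p * y ^ (n - 1 - p)) := by
    rw [mul_sum, mul_sum]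
    symm
    refine sum_subset_zero_on_sdiff (range_subset_range.mpr (by omega)) ?_ ?_
    · intro p hp
      have : ¬ p < n := by simpa using (mem_sdiff.mp hp).2
      simp [this]
    · intro p hp
      rw [if_pos (mem_range.mp hp), map_pow]; ring
  rw [e, Commute.mul_geom_sum₂ (Commute.all _ _), map_mul, map_pow, Algebra.smul_def]
  rw [show algebraMap ℚ ℚ⟦X⟧ (A.coeff n) = C (A.coeff n) from rfl]; ring

end Pool.Agent.Lib.MP_caab05_ag.BR
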