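import Pool.Agent.Lib.MP_caab05_ag.BR.PF

/-! The contiguity recursion for the sums `∑ w t / (t + i) ^ s`. -/

namespace Pool.Agent.Lib.MP_caab05_ag.BR

open Finset PowerSeries Nat

variable {k : ℕ}

/-- The hypergeometric coefficient. -/
def cc (a : Fin k → ℚ) (t : ℕ) : ℚ := ∏ l, (∏ n ∈ range t, (a l + n)) / t !

noncomputable def ww (a : Fin k → ℚ) (z : ℝ) (t : ℕ) : ℝ := (cc a t : ℝ) * z ^ t

noncomputable def XX (a : Fin k → ℚ) (z : ℝ) (p : ℕ) : ℝ := ∑' t : ℕ, (t : ℝ) ^ p * ww a z t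

noncomputable def AP (a : Fin k → ℚ) : Polynomial ℚ := ∏ l, (Polynomial.X + Polynomial.C (a l))

noncomputable def yy (i : ℕ) : ℚ⟦X⟧ := C (-(i : ℚ)) + X

noncomputable def gg (k : ℕ) (S : ℚ⟦X⟧) (i t : ℕ) : ℚ := coeff (k - 1) (S * geo ((t : ℚ) + i))

noncomputable def Lam (a : Fin k → ℚ) (z : ℝ) (S : ℚ⟦X⟧) (i : ℕ) : ℝ :=
  ∑' t : ℕ, (gg k S i t : ℝ) * ww a z t

theorem AP_natDegree (a : Fin k → ℚ) : (AP a).natDegree ≤ k := by
  unfold AP
  rw [Polynomial.natDegree_prod_of_monic _ _ fun i _ => Polynomial.monic_X_add_C _]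
  simp

theorem cc_succ (a : Fin k → ℚ) (t : ℕ) :
    ((t : ℚ) + 1) ^ k * cc a (t + 1) = (AP a).eval (t : ℚ) * cc a t := by
  unfold cc AP
  rw [Polynomial.eval_prod, ← prod_mul_distrib]
  have : ((t : ℚ) + 1) ^ k = ∏ _l : Fin k, ((t : ℚ) + 1) := by simp
  rw [this, ← prod_mul_distrib]
  refine prod_congr rfl fun l _ => ?_
  rw [prod_range_succ, Nat.factorial_succ]
  simp only [Polynomial.eval_add, Polynomial.eval_X, Polynomial.eval_C]
  push_cast; field_simp; ring

theorem poch_le {x : ℚ} (h0 : 0 ≤ x) (h1 : x ≤ 1) (t : ℕ) : ∏ n ∈ range t, (x + n) ≤ t ! := by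
  have : (t ! : ℚ) = ∏ n ∈ range t, ((n : ℚ) + 1) := by
    rw [← Finset.prod_range_add_one_eq_factorial]; push_cast; rfl
  rw [this]
  exact prod_le_prod (fun n _ => by positivity) fun n _ => by linarith

theorem cc_nonneg {a : Fin k → ℚ} (ha : ∀ l, 0 < a l ∧ a l < 1) (t : ℕ) : 0 ≤ cc a t :=
  prod_nonneg fun l _ => div_nonneg (prod_nonneg fun n _ => by have := (ha l).1; positivity)
    (by positivity)

theorem cc_le_one {a : Fin k → ℚ} (ha : ∀ l, 0 < a l ∧ a l < 1) (t : ℕ) : cc a t ≤ 1 := by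
  refine prod_le_one (fun l _ => div_nonneg (prod_nonneg fun n _ => by
    have := (ha l).1; positivity) (by positivity)) fun l _ => ?_
  rw [div_le_one (by positivity)]
  exact poch_le (ha l).1.le (ha l).2.le t

theorem summ {a : Fin k → ℚ} (ha : ∀ l, 0 < a l ∧ a l < 1) {z : ℝ} (hz0 : z ≠ 0) (hz : |z| < 1)
    (f : ℕ → ℝ) (c : ℝ) (p : ℕ) (h : ∀ t, |f t| ≤ c * ((t : ℝ) + 1) ^ p) :
    Summable fun t => f t * ww a z t := by
  have h1 : Summable fun t : ℕ => (t : ℝ) ^ p * |z| ^ t :=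
    summable_pow_mul_geometric_of_norm_lt_one p (by simpa using hz)
  have h2 := ((summable_nat_add_iff 1).mpr h1).mul_left (c / |z|)
  refine Summable.of_norm_bounded h2 fun t => ?_
  have hz' : 0 < |z| := abs_pos.mpr hz0
  have h3 : (0 : ℝ) ≤ cc a t := by exact_mod_cast cc_nonneg ha t
  have h4 : (cc a t : ℝ) ≤ 1 := by exact_mod_cast cc_le_one ha t
  rw [Real.norm_eq_abs, abs_mul, ww, abs_mul, abs_of_nonneg h3, abs_pow]
  have h5 : (cc a t : ℝ) * |z| ^ t ≤ |z| ^ t := mul_le_of_le_one_left (by positivity) h4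
  calc |f t| * ((cc a t : ℝ) * |z| ^ t) ≤ c * ((t : ℝ) + 1) ^ p * |z| ^ t :=
        mul_le_mul (h t) h5 (by positivity) ((abs_nonneg _).trans (h t))
    _ = _ := by push_cast; field_simp; ring

theorem nrm_geo (u : ℕ) : nrm k 1 (geo u) ≤ k := by
  unfold nrm
  calc ∑ n ∈ range k, |coeff n (geo u)| * 1 ^ n ≤ ∑ _n ∈ range k, (1 : ℚ) := by
        refine sum_le_sum fun n _ => ?_
        simp only [geo, coeff_mk, one_pow, mul_one]
        rcases Nat.eq_zero_or_pos u with h | h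
        · simp [h]
        · rw [abs_of_nonneg (by positivity), div_le_one (by positivity)]
          exact one_le_pow₀ (by exact_mod_cast h)
    _ = k := by simp

theorem gg_bound (hk : 1 ≤ k) (S : ℚ⟦X⟧) (i t : ℕ) : |gg k S i t| ≤ nrm k 1 S * k := by
  have h1 := coeff_le_nrm (k := k) zero_le_one (S * geo ((t : ℚ) + i)) (n := k - 1) (by omega)
  rw [one_pow, mul_one] at h1
  refine h1.trans ((nrm_mul zero_le_one _ _).trans ?_)
  have := nrm_geo (k := k) (t + i)
  push_cast at this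
  exact mul_le_mul_of_nonneg_left this (nrm_nonneg zero_le_one _)

theorem mul_gg (A : Polynomial ℚ) (hA : A.natDegree ≤ k) (S : ℚ⟦X⟧) (i t : ℕ)
    (h : (t : ℚ) + i ≠ 0) :
    A.eval (t : ℚ) * gg k S i t = gg k (S * Polynomial.aeval (yy i) A) i t
      + ∑ p ∈ range k, (t : ℚ) ^ p * coeff (k - 1) (S * quo k A (yy i) p) := by
  have h1 := quo_spec k A hA (yy i) t
  have h2 : (C (t : ℚ) - yy i) * geo ((t : ℚ) + i) = 1 := by
    rw [← geo_mul h, yy, map_add, map_neg]; ring
  unfold gg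
  simp only [← coeff_C_mul, ← map_sum, ← map_add]
  congr 1
  rw [h1]
  have : ∑ p ∈ range k, C ((t : ℚ) ^ p) * (S * quo k A (yy i) p)
      = S * ∑ p ∈ range k, C ((t : ℚ) ^ p) * quo k A (yy i) p := by
    rw [mul_sum]; exact sum_congr rfl fun _ _ => by ring
  rw [this]
  linear_combination (S * ∑ p ∈ range k, C ((t : ℚ) ^ p) * quo k A (yy i) p) * h2

theorem pow_gg (hk : 1 ≤ k) (S : ℚ⟦X⟧) (i t : ℕ) :
    (t : ℚ) ^ k * gg k S i t = gg k (S * yy i ^ k) i t
      + ∑ p ∈ range k, (t : ℚ) ^ p * coeff (k - 1) (S * quo k (Polynomial.X ^ k) (yy i) p)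
      - if t = 0 then (if i = 0 then coeff 0 S else 0) else 0 := by
  by_cases h : (t : ℚ) + i = 0
  · have ht : t = 0 := by
      have : t + i = 0 := by exact_mod_cast h
      omega
    have hi : i = 0 := by
      have : t + i = 0 := by exact_mod_cast h
      omega
    subst ht; subst hi
    obtain ⟨k, rfl⟩ : ∃ j, k = j + 1 := ⟨k - 1, by omega⟩
    have hq : quo (k + 1) (Polynomial.X ^ (k + 1)) (yy 0) 0 = X ^ k := by
      unfold quo
      rw [sum_eq_single (k + 1)]
      · simp [yy]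
      · intro n _ hn
        simp [Polynomial.coeff_X_pow, hn]
      · simp
    rw [sum_range_succ']
    simp [gg, geo_zero, hq, coeff_mul_X_pow']
  · have := mul_gg (k := k) (Polynomial.X ^ k) (by simp) S i t h
    simp only [Polynomial.eval_pow, Polynomial.eval_X, map_pow, Polynomial.aeval_X] at this
    rw [this]
    have : (if t = 0 then (if i = 0 then coeff 0 S else 0) else 0) = 0 := by
      split_ifs with h1 h2
      · exact absurd (by simp [h1, h2]) h
      · rfl
      · rfl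
    rw [this, sub_zero]

theorem gg_zero (hk : 1 ≤ k) (S : ℚ⟦X⟧) (t : ℕ) : gg k (S * yy 0 ^ k) 0 t = 0 := by
  unfold gg
  have : S * yy 0 ^ k * geo ((t : ℚ) + (0 : ℕ)) = X ^ k * (S * geo ((t : ℚ) + (0 : ℕ))) := by
    simp [yy]; ring
  rw [this, coeff_X_pow_mul', if_neg (by omega)]

section
variable {a : Fin k → ℚ} (ha : ∀ l, 0 < a l ∧ a l < 1) {z : ℝ} (hz0 : z ≠ 0) (hz : |z| < 1)
include ha hz0 hz

theorem summ_X (p : ℕ) : Summable fun t : ℕ => (t : ℝ) ^ p * ww a z t :=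
  summ ha hz0 hz _ 1 p fun t => by
    rw [abs_of_nonneg (by positivity), one_mul]
    exact pow_le_pow_left₀ (by positivity) (by linarith) p

theorem summ_g (hk : 1 ≤ k) (S : ℚ⟦X⟧) (i : ℕ) :
    Summable fun t : ℕ => (gg k S i t : ℝ) * ww a z t :=
  summ ha hz0 hz _ ((nrm k 1 S * k : ℚ) : ℝ) 0 fun t => by
    rw [pow_zero, mul_one]; exact_mod_cast gg_bound hk S i t

theorem step (hk : 1 ≤ k) (S : ℚ⟦X⟧) (j : ℕ) :
    z * Lam a z (S * Polynomial.aeval (yy (j + 1)) (AP a)) (j + 1)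
      = Lam a z (S * yy j ^ k) j
        + ∑ p ∈ range k, ((coeff (k - 1) (S * quo k (Polynomial.X ^ k) (yy j) p) : ℚ)
            - z * (coeff (k - 1) (S * quo k (AP a) (yy (j + 1)) p) : ℚ)) * XX a z p
        - (if j = 0 then ((coeff 0 S : ℚ) : ℝ) else 0) := by
  set T : ℕ → ℝ := fun t => ((t : ℝ) ^ k * (gg k S j t : ℝ)) * ww a z t with hT
  have hTs : Summable T := by
    refine summ ha hz0 hz _ ((nrm k 1 S * k : ℚ) : ℝ) k fun t => ?_
    rw [abs_mul, mul_comm]
    refine mul_le_mul (by exact_mod_cast gg_bound hk S j t) ?_ (abs_nonneg _) ?_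
    · rw [abs_of_nonneg (by positivity)]
      exact pow_le_pow_left₀ (by positivity) (by linarith) k
    · have := nrm_nonneg (k := k) zero_le_one S
      positivity
  have h0 : ∑' t, T t = ∑' t, T (t + 1) := by
    rw [hTs.tsum_eq_zero_add]
    have : T 0 = 0 := by simp [hT, zero_pow (by omega : k ≠ 0)]
    rw [this, zero_add]
  have h1 : HasSum T (Lam a z (S * yy j ^ k) j
      + ∑ p ∈ range k, ((coeff (k - 1) (S * quo k (Polynomial.X ^ k) (yy j) p) : ℚ) : ℝ) * XX a z p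
      - (if j = 0 then ((coeff 0 S : ℚ) : ℝ) else 0)) := by
    have e : T = fun t => (gg k (S * yy j ^ k) j t : ℝ) * ww a z t
        + ∑ p ∈ range k, ((coeff (k - 1) (S * quo k (Polynomial.X ^ k) (yy j) p) : ℚ) : ℝ)
          * ((t : ℝ) ^ p * ww a z t)
        - if t = 0 then (if j = 0 then ((coeff 0 S : ℚ) : ℝ) else 0) else 0 := by
      funext t
      have := congrArg (fun q : ℚ => (q : ℝ)) (pow_gg hk S j t)
      simp only [Rat.cast_sub, Rat.cast_add, Rat.cast_mul, Rat.cast_pow, Rat.cast_natCast,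
        Rat.cast_sum] at this
      rw [hT]; simp only
      rw [this, sub_mul, add_mul, sum_mul]
      congr 1
      · congr 1; exact sum_congr rfl fun _ _ => by ring
      · split_ifs with h1 h2
        · simp [h1, ww, cc]
        · simp
        · simp
    rw [e]
    refine HasSum.sub (HasSum.add (summ_g ha hz0 hz hk _ _).hasSum
      (hasSum_sum fun p _ => (summ_X ha hz0 hz p).hasSum.mul_left _)) (hasSum_ite_eq 0 _)
  have h2 : HasSum (fun t => T (t + 1)) (z * Lam a z (S * Polynomial.aeval (yy (j + 1)) (AP a)) (j + 1)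
      + ∑ p ∈ range k, z * ((coeff (k - 1) (S * quo k (AP a) (yy (j + 1)) p) : ℚ) : ℝ) * XX a z p) := by
    have e : (fun t => T (t + 1)) = fun t =>
        z * ((gg k (S * Polynomial.aeval (yy (j + 1)) (AP a)) (j + 1) t : ℝ) * ww a z t)
        + ∑ p ∈ range k, z * ((coeff (k - 1) (S * quo k (AP a) (yy (j + 1)) p) : ℚ) : ℝ)
          * ((t : ℝ) ^ p * ww a z t) := by
      funext t
      have h3 := congrArg (fun q : ℚ => (q : ℝ))
        (mul_gg (AP a) (AP_natDegree a) S (j + 1) t (by positivity))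
      have h4 := congrArg (fun q : ℚ => (q : ℝ)) (cc_succ a t)
      have h5 : gg k S j (t + 1) = gg k S (j + 1) t := by
        unfold gg; push_cast; congr 3; ring
      simp only [Rat.cast_add, Rat.cast_mul, Rat.cast_pow, Rat.cast_natCast,
        Rat.cast_sum, Rat.cast_one] at h3 h4
      have h6 : ∑ p ∈ range k, z * ((coeff (k - 1) (S * quo k (AP a) (yy (j + 1)) p) : ℚ) : ℝ)
          * ((t : ℝ) ^ p * ww a z t) = z * ww a z t * ∑ p ∈ range k,
            (t : ℝ) ^ p * ((coeff (k - 1) (S * quo k (AP a) (yy (j + 1)) p) : ℚ) : ℝ) := by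
        rw [mul_sum]; exact sum_congr rfl fun _ _ => by ring
      rw [hT, h6]; simp only
      rw [h5]
      unfold ww
      push_cast
      linear_combination (z * z ^ t * (gg k S (j + 1) t : ℝ)) * h4 + (z * (cc a t : ℝ) * z ^ t) * h3
    rw [e]
    exact HasSum.add ((summ_g ha hz0 hz hk _ _).hasSum.mul_left _)
      (hasSum_sum fun p _ => (summ_X ha hz0 hz p).hasSum.mul_left _)
  rw [h1.tsum_eq, h2.tsum_eq] at h0
  simp only [sub_mul, sum_sub_distrib]
  linarith

end

end Pool.Agent.Lib.MP_caab05_ag.BR
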