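import Mathlib

/-! Formal power series toolkit: denominators and truncated weighted norms. -/

namespace Pool.Agent.Lib.MP_caab05_ag.BR

open Finset PowerSeries Nat

/-- The series of `1 / (c - X)`. -/
noncomputable def geo (c : ℚ) : ℚ⟦X⟧ := PowerSeries.mk fun s => 1 / c ^ (s + 1)

theorem geo_mul {c : ℚ} (hc : c ≠ 0) : (C c - X) * geo c = 1 := by
  ext n
  rw [sub_mul, map_sub, coeff_C_mul]
  cases n with
  | zero => simp [geo, hc]
  | succ n =>
    rw [coeff_succ_X_mul]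
    simp only [geo, coeff_mk, coeff_one, Nat.add_eq_zero_iff, one_ne_zero, and_false, if_false]
    field_simp
    ring

theorem geo_zero : geo 0 = 0 := by
  ext n; simp [geo]

/-- The series of `1 / (c + X)`. -/
noncomputable def linv (c : ℚ) : ℚ⟦X⟧ := - geo (-c)

theorem lin_mul_linv {c : ℚ} (hc : c ≠ 0) : (C c + X) * linv c = 1 := by
  have := geo_mul (c := -c) (neg_ne_zero.mpr hc)
  rw [linv, ← this, map_neg]; ring

/-- Series whose `n`-th coefficient has denominator dividing `D ^ n`. -/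
noncomputable def ZS (D : ℕ) : Subring ℚ⟦X⟧ :=
  (PowerSeries.map (Int.castRingHom ℚ)).range.comap (rescale (D : ℚ))

theorem mem_ZS {D : ℕ} {f : ℚ⟦X⟧} :
    f ∈ ZS D ↔ ∀ n, ∃ z : ℤ, (z : ℚ) = (D : ℚ) ^ n * coeff n f := by
  constructor
  · rintro ⟨g, hg⟩ n
    refine ⟨coeff n g, ?_⟩
    have := congrArg (coeff n) hg
    simpa [coeff_rescale] using this
  · intro h
    choose z hz using h
    refine ⟨PowerSeries.mk z, ?_⟩
    ext n
    simp [coeff_rescale, hz]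

theorem C_int_mem (D : ℕ) (z : ℤ) : C (z : ℚ) ∈ ZS D := by
  have : (C (z : ℚ) : ℚ⟦X⟧) = (z : ℚ⟦X⟧) := by simp
  rw [this]; exact intCast_mem _ _

theorem C_mem_of {D : ℕ} {c : ℚ} (h : ∃ z : ℤ, (z : ℚ) = c) : C c ∈ ZS D := by
  obtain ⟨z, rfl⟩ := h; exact C_int_mem D z

theorem CX_mem {D : ℕ} {c : ℚ} (h : ∃ u : ℤ, (u : ℚ) = D * c) : C c * X ∈ ZS D := by
  obtain ⟨u, hu⟩ := h
  rw [mem_ZS]
  intro n
  rw [coeff_C_mul, coeff_X]
  split_ifs with h
  · exact ⟨u, by simp [h, hu]⟩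
  · exact ⟨0, by simp⟩

theorem X_mem (D : ℕ) : (X : ℚ⟦X⟧) ∈ ZS D := by
  have := CX_mem (D := D) (c := 1) ⟨D, by simp⟩
  simpa using this

theorem unit_mem {D : ℕ} {c : ℚ} (hc : c ≠ 0) (h : ∃ u : ℤ, (u : ℚ) * c = D) :
    C c * linv c ∈ ZS D := by
  obtain ⟨u, hu⟩ := h
  rw [mem_ZS]
  intro n
  refine ⟨(-u) ^ n, ?_⟩
  simp only [linv, geo, mul_neg, map_neg, coeff_C_mul, coeff_mk, ← hu]
  push_cast
  have : (-c) ^ (n + 1) = -(c * (-c) ^ n) := by ring
  rw [this]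
  have h2 : (-c) ^ n ≠ 0 := pow_ne_zero _ (neg_ne_zero.mpr hc)
  field_simp
  rw [← mul_pow]; congr 1; ring

/-- Truncated weighted norm. -/
noncomputable def nrm (k : ℕ) (ρ : ℚ) (f : ℚ⟦X⟧) : ℚ := ∑ n ∈ range k, |coeff n f| * ρ ^ n

section
variable {k : ℕ} {ρ : ℚ}

theorem nrm_nonneg (hρ : 0 ≤ ρ) (f : ℚ⟦X⟧) : 0 ≤ nrm k ρ f :=
  sum_nonneg fun _ _ => by positivity

theorem coeff_le_nrm (hρ : 0 ≤ ρ) (f : ℚ⟦X⟧) {n : ℕ} (hn : n < k) :
    |coeff n f| * ρ ^ n ≤ nrm k ρ f :=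
  single_le_sum (f := fun n => |coeff n f| * ρ ^ n) (fun _ _ => by positivity) (mem_range.mpr hn)

theorem nrm_mul (hρ : 0 ≤ ρ) (f g : ℚ⟦X⟧) : nrm k ρ (f * g) ≤ nrm k ρ f * nrm k ρ g := by
  classical
  unfold nrm
  rw [sum_mul_sum, ← sum_product']
  calc ∑ n ∈ range k, |coeff n (f * g)| * ρ ^ n
      ≤ ∑ n ∈ range k, ∑ p ∈ antidiagonal n, |coeff p.1 f| * ρ ^ p.1 * (|coeff p.2 g| * ρ ^ p.2) := by
        refine sum_le_sum fun n _ => ?_
        rw [coeff_mul]
        calc |∑ p ∈ antidiagonal n, coeff p.1 f * coeff p.2 g| * ρ ^ n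
            ≤ (∑ p ∈ antidiagonal n, |coeff p.1 f * coeff p.2 g|) * ρ ^ n :=
              mul_le_mul_of_nonneg_right (abs_sum_le_sum_abs _ _) (by positivity)
          _ = _ := by
              rw [sum_mul]
              refine sum_congr rfl fun p hp => ?_
              rw [← mem_antidiagonal.mp hp, abs_mul, pow_add]; ring
    _ = ∑ p ∈ (range k).biUnion antidiagonal, |coeff p.1 f| * ρ ^ p.1 * (|coeff p.2 g| * ρ ^ p.2) := by
        rw [sum_biUnion]
        intro a _ b _ hab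
        rw [Function.onFun, Finset.disjoint_left]
        intro p h1 h2
        exact hab ((mem_antidiagonal.mp h1).symm.trans (mem_antidiagonal.mp h2))
    _ ≤ _ := by
        refine sum_le_sum_of_subset_of_nonneg ?_ fun _ _ _ => by positivity
        intro p hp
        simp only [mem_biUnion, mem_range, HasAntidiagonal.mem_antidiagonal, mem_product] at hp ⊢
        obtain ⟨n, hn, h⟩ := hp
        omega

theorem nrm_add (hρ : 0 ≤ ρ) (f g : ℚ⟦X⟧) : nrm k ρ (f + g) ≤ nrm k ρ f + nrm k ρ g := by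
  unfold nrm
  rw [← sum_add_distrib]
  refine sum_le_sum fun n _ => ?_
  rw [map_add, ← add_mul]
  exact mul_le_mul_of_nonneg_right (abs_add_le _ _) (by positivity)

theorem nrm_neg (f : ℚ⟦X⟧) : nrm k ρ (-f) = nrm k ρ f := by
  simp [nrm]

theorem nrm_C (c : ℚ) : nrm k ρ (C c) ≤ |c| := by
  unfold nrm
  cases k with
  | zero => simp
  | succ k =>
    rw [sum_range_succ']
    simp [coeff_C]

theorem nrm_one : nrm k ρ 1 ≤ 1 := by
  simpa using nrm_C (k := k) (ρ := ρ) 1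

theorem nrm_X (hρ : 0 ≤ ρ) : nrm k ρ X ≤ ρ := by
  unfold nrm
  have : ∀ n, |coeff n (X : ℚ⟦X⟧)| * ρ ^ n = if n = 1 then ρ else 0 := by
    intro n; rw [coeff_X]; split_ifs with h <;> simp [h]
  simp only [this, sum_ite_eq', mem_range]
  split_ifs <;> simp [hρ]

theorem nrm_lin (hρ : 0 ≤ ρ) (c : ℚ) : nrm k ρ (C c + X) ≤ |c| + ρ :=
  (nrm_add hρ _ _).trans (add_le_add (nrm_C c) (nrm_X hρ))

theorem nrm_prod (hρ : 0 ≤ ρ) {ι : Type*} (s : Finset ι) (f : ι → ℚ⟦X⟧) (b : ι → ℚ)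
    (h : ∀ i ∈ s, nrm k ρ (f i) ≤ b i) : nrm k ρ (∏ i ∈ s, f i) ≤ ∏ i ∈ s, b i := by
  classical
  induction s using Finset.induction_on with
  | empty => simpa using nrm_one
  | insert a s ha ih =>
    rw [prod_insert ha, prod_insert ha]
    refine (nrm_mul hρ _ _).trans ?_
    have h1 := h a (mem_insert_self _ _)
    exact mul_le_mul h1 (ih fun i hi => h i (mem_insert_of_mem hi)) (nrm_nonneg hρ _)
      ((nrm_nonneg hρ _).trans h1)

theorem nrm_pow (hρ : 0 ≤ ρ) (f : ℚ⟦X⟧) {b : ℚ} (h : nrm k ρ f ≤ b) (n : ℕ) :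
    nrm k ρ (f ^ n) ≤ b ^ n := by
  have := nrm_prod hρ (range n) (fun _ => f) (fun _ => b) (fun _ _ => h)
  simpa using this

theorem nrm_sum (hρ : 0 ≤ ρ) {ι : Type*} (s : Finset ι) (f : ι → ℚ⟦X⟧) :
    nrm k ρ (∑ i ∈ s, f i) ≤ ∑ i ∈ s, nrm k ρ (f i) := by
  classical
  induction s using Finset.induction_on with
  | empty => simp [nrm]
  | insert a s ha ih =>
    rw [sum_insert ha, sum_insert ha]
    exact (nrm_add hρ _ _).trans (by linarith)

theorem nrm_unit (hρ : 0 ≤ ρ) {c : ℚ} (hc : c ≠ 0) (h : 2 * ρ ≤ |c|) :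
    nrm k ρ (C c * linv c) ≤ 2 := by
  unfold nrm
  have hc' : 0 < |c| := abs_pos.mpr hc
  calc ∑ n ∈ range k, |coeff n (C c * linv c)| * ρ ^ n ≤ ∑ n ∈ range k, (1 / 2 : ℚ) ^ n := by
        refine sum_le_sum fun n _ => ?_
        simp only [linv, geo, mul_neg, map_neg, coeff_C_mul, coeff_mk, abs_neg, abs_mul, abs_div,
          abs_one, abs_pow]
        have : |c| * (1 / |c| ^ (n + 1)) * ρ ^ n = (ρ / |c|) ^ n := by
          rw [div_pow]; field_simp; ring
        rw [this]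
        refine pow_le_pow_left₀ (by positivity) ?_ n
        rw [div_le_iff₀ hc']; linarith
    _ ≤ 2 := by
        have : ∀ k : ℕ, ∑ n ∈ range k, (1 / 2 : ℚ) ^ n = 2 - 2 * (1 / 2) ^ k := by
          intro k
          induction k with
          | zero => simp
          | succ k ih => rw [sum_range_succ, ih]; ring
        rw [this]
        have : (0 : ℚ) ≤ (1 / 2) ^ k := by positivity
        linarith

end

theorem prod_linv {ι : Type*} (s : Finset ι) (c : ι → ℚ) (h : ∀ i ∈ s, c i ≠ 0) :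
    ∏ i ∈ s, linv (c i) = C (∏ i ∈ s, (c i)⁻¹) * ∏ i ∈ s, (C (c i) * linv (c i)) := by
  rw [map_prod, ← prod_mul_distrib]
  refine prod_congr rfl fun i hi => ?_
  rw [← mul_assoc, ← map_mul, inv_mul_cancel₀ (h i hi), map_one, one_mul]

/-- The binomial coefficient `(x + X choose m)`. -/
noncomputable def binS (x : ℚ) (m : ℕ) : ℚ⟦X⟧ :=
  C ((m ! : ℚ)⁻¹) * ∏ n ∈ range m, (C (x - n) + X)

theorem binS_pascal (x : ℚ) (m : ℕ) : binS (x + 1) (m + 1) = binS x (m + 1) + binS x m := by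
  unfold binS
  rw [prod_range_succ', prod_range_succ]
  have e1 : ∏ n ∈ range m, (C (x + 1 - ((n + 1 : ℕ) : ℚ)) + X : ℚ⟦X⟧) = ∏ n ∈ range m, (C (x - n) + X) :=
    prod_congr rfl fun n _ => by push_cast; congr 2; ring
  rw [e1]
  have e2 : (C ((m ! : ℚ)⁻¹) : ℚ⟦X⟧) = C (((m + 1)! : ℚ)⁻¹) * C ((m : ℚ) + 1) := by
    rw [← map_mul, Nat.factorial_succ]; push_cast; congr 1; field_simp
  rw [e2]
  simp only [map_sub, map_add, map_one, Nat.cast_zero, map_zero]
  ring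

theorem binS_mem {D M : ℕ} (hD : ∀ n, 1 ≤ n → n ≤ M → n ∣ D) (m : ℕ) (hm : m ≤ M) (x : ℕ) :
    binS (-(x : ℚ)) m ∈ ZS D := by
  induction m generalizing x with
  | zero => simp [binS, one_mem]
  | succ m ih =>
    induction x with
    | zero =>
      have e : binS (-((0 : ℕ) : ℚ)) (m + 1)
          = (C (((m : ℚ) + 1)⁻¹) * X) * ∏ n ∈ range m, (C (((n : ℚ) + 1)⁻¹) * X - 1) := by
        unfold binS
        rw [prod_range_succ']
        have e1 : ∀ n : ℕ, (C (-((0 : ℕ) : ℚ) - ((n + 1 : ℕ) : ℚ)) + X : ℚ⟦X⟧)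
            = C ((n : ℚ) + 1) * (C (((n : ℚ) + 1)⁻¹) * X - 1) := by
          intro n
          rw [mul_sub, ← mul_assoc, ← map_mul, mul_inv_cancel₀ (by positivity)]
          simp only [Nat.cast_zero, neg_zero, zero_sub, map_neg, map_one]; push_cast; ring
        simp only [e1, prod_mul_distrib, ← map_prod]
        have e2 : ∏ n ∈ range m, ((n : ℚ) + 1) = m ! := by
          rw [← Finset.prod_range_add_one_eq_factorial]; push_cast; rfl
        have e3 : (C (((m : ℚ) + 1)⁻¹) : ℚ⟦X⟧) = C (((m + 1)! : ℚ)⁻¹) * C (m ! : ℚ) := by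
          rw [← map_mul, Nat.factorial_succ]; push_cast; congr 1; field_simp
        rw [e2, e3]
        simp only [Nat.cast_zero, neg_zero, sub_self, map_zero]
        ring
      rw [e]
      have hx : ∀ n : ℕ, n + 1 ≤ M → C (((n : ℚ) + 1)⁻¹) * X ∈ ZS D := by
        intro n hn
        obtain ⟨u, hu⟩ := hD (n + 1) (by omega) hn
        refine CX_mem ⟨u, ?_⟩
        rw [hu]; push_cast; field_simp
      refine mul_mem (hx m hm) (prod_mem fun n hn => sub_mem (hx n ?_) (one_mem _))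
      have := mem_range.mp hn; omega
    | succ x ihx =>
      have e := binS_pascal (-((x + 1 : ℕ) : ℚ)) m
      have e' : -((x + 1 : ℕ) : ℚ) + 1 = -(x : ℚ) := by push_cast; ring
      rw [e'] at e
      have : binS (-((x + 1 : ℕ) : ℚ)) (m + 1) = binS (-(x : ℚ)) (m + 1) - binS (-((x + 1 : ℕ) : ℚ)) m := by
        rw [e]; ring
      rw [this]
      exact sub_mem ihx (ih (by omega) _)

theorem nrm_binS {k : ℕ} {ρ : ℚ} (hρ : 0 ≤ ρ) (hρ1 : ρ ≤ 1) (x m : ℕ) :
    nrm k ρ (binS (-(x : ℚ)) m) ≤ 2 ^ (x + m) := by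
  unfold binS
  refine (nrm_mul hρ _ _).trans ?_
  have h1 := nrm_prod (k := k) hρ (range m) (fun n => (C (-(x : ℚ) - n) + X : ℚ⟦X⟧))
    (fun n => (x : ℚ) + 1 + n) (fun n _ => (nrm_lin hρ _).trans (by
      have : -(x : ℚ) - n = -((x : ℚ) + n) := by ring
      rw [this, abs_neg, abs_of_nonneg (by positivity)]; linarith))
  have h2 : ∏ n ∈ range m, ((x : ℚ) + 1 + n) = m ! * (x + m).choose m := by
    have := Nat.ascFactorial_eq_factorial_mul_choose x m
    rw [Nat.ascFactorial_eq_prod_range] at this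
    exact_mod_cast this
  have h3 : ((x + m).choose m : ℚ) ≤ 2 ^ (x + m) := by
    exact_mod_cast Nat.choose_le_two_pow _ _
  calc nrm k ρ (C (m ! : ℚ)⁻¹) * nrm k ρ (∏ n ∈ range m, (C (-(x : ℚ) - n) + X))
      ≤ (m ! : ℚ)⁻¹ * (m ! * (x + m).choose m) := by
        refine mul_le_mul ((nrm_C _).trans (by rw [abs_of_nonneg (by positivity)])) (h2 ▸ h1)
          (nrm_nonneg hρ _) (by positivity)
    _ = (x + m).choose m := by field_simp
    _ ≤ _ := h3

end Pool.Agent.Lib.MP_caab05_ag.BR
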